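import Mathlib

/-!
# Subset sums, cells, neighbourhoods, kernels (shared definitions for MP_5b30f8_an)
-/

set_option autoImplicit false

open Finset
open scoped symmDiff

namespace Pool.Agent.Lib.Helper88.Ach

variable {ι : Type} [Fintype ι] [DecidableEq ι]

/-- Subset sum. -/
def X (x : ι → ℝ) (S : Finset ι) : ℝ := ∑ n ∈ S, x n

/-- Number of cells of side `r` met by the subset sums of the configurations in `𝒮`. -/
noncomputable def cells (x : ι → ℝ) (r : ℝ) (𝒮 : Finset (Finset ι)) : ℕ :=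
  (𝒮.image (fun S => ⌊X x S / r⌋)).card

/-- All configurations at Hamming distance at most `T` from `𝒮`. -/
def nbhd (T : ℕ) (𝒮 : Finset (Finset ι)) : Finset (Finset ι) :=
  univ.filter (fun S' => ∃ S ∈ 𝒮, (S ∆ S').card ≤ T)

/-- A random set of flips (law `μ`, at most `M` flips, total displacement at most `d`), together with a
Markov kernel `K` on configurations dominated by twice the free flips. -/
structure Kern (x : ι → ℝ) (M : ℕ) (d : ℝ) where
  μ : Finset ι → ℝ
  μ_nonneg : ∀ F, 0 ≤ μ F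
  μ_sum : ∑ F, μ F = 1
  μ_card : ∀ F, μ F ≠ 0 → F.card ≤ M
  μ_disp : ∀ F, μ F ≠ 0 → X x F ≤ d
  K : Finset ι → Finset ι → ℝ
  K_nonneg : ∀ S S', 0 ≤ K S S'
  K_sum : ∀ S, ∑ S', K S S' = 1
  K_dom : ∀ S S', K S S' ≤ 2 * μ (S ∆ S')

/-- The scale `2 ^ (-(q ^ i))`. -/
noncomputable def sc (q : ℝ) (i : ℕ) : ℝ := (2:ℝ) ^ (-(q ^ i))

/-- Absorption property of a kernel at level `i` (with loss factor `A`): if from every configuration
of `𝒮` the kernel reaches `𝒮'` with probability at least `β`, then the `i`-neighbourhood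
of `𝒮` meets at most `A / β` times as many cells as `𝒮'`. -/
def Absorbs {x : ι → ℝ} {M : ℕ} {d : ℝ} (κ : Kern x M d) (i : ℕ) (r A : ℝ) : Prop :=
  ∀ (𝒮 𝒮' : Finset (Finset ι)) (β : ℝ), 0 < β →
    (∀ S ∈ 𝒮, β ≤ ∑ S' ∈ 𝒮', κ.K S S') →
    (cells x r (nbhd i 𝒮) : ℝ) * β ≤ A * cells x r 𝒮'

end Pool.Agent.Lib.Helper88.Ach
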