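import Mathlib
set_option autoImplicit false
set_option linter.unusedSectionVars false
open Finset
namespace Pool.Agent.Lib.Helper88.Ach

/-- Relative entropy, pointwise. -/
theorem klog {x y : ℝ} (hx : 0 ≤ x) (hy : 0 ≤ y) (h : y = 0 → x = 0) :
    x - y ≤ x * (Real.log x - Real.log y) := by
  rcases hx.eq_or_lt with h0 | h0
  · subst h0; simp [hy]
  · have hy' : 0 < y := lt_of_le_of_ne hy (fun e => by have := h e.symm; linarith)
    have h1 := Real.log_le_sub_one_of_pos (div_pos hy' h0)
    rw [Real.log_div hy'.ne' h0.ne'] at h1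
    have h2 : x * (Real.log y - Real.log x) ≤ x * (y / x - 1) := mul_le_mul_of_nonneg_left h1 h0.le
    have h3 : x * (y / x - 1) = y - x := by field_simp
    rw [h3] at h2
    linarith [mul_sub x (Real.log x) (Real.log y), mul_sub x (Real.log y) (Real.log x)]

section group
variable {G : Type} [AddCommGroup G] [Fintype G] [DecidableEq G]

/-- Entropy of a nonnegative function. -/
noncomputable def H (p : G → ℝ) : ℝ := ∑ g, Real.negMulLog (p g)

/-- A law on a finite type. -/
structure IsLaw {Ω : Type} [Fintype Ω] (p : Ω → ℝ) : Prop where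
  nn : ∀ g, 0 ≤ p g
  sum : ∑ g, p g = 1

/-- Convolution. -/
def conv (p q : G → ℝ) (g : G) : ℝ := ∑ h, p h * q (g - h)

/-- Reflection. -/
def ngt (p : G → ℝ) (g : G) : ℝ := p (-g)

/-- Law of a function. -/
def law {Ω : Type} [Fintype Ω] (w : Ω → ℝ) (f : Ω → G) (g : G) : ℝ := ∑ ω, if f ω = g then w ω else 0

theorem sum_law {Ω : Type} [Fintype Ω] (w : Ω → ℝ) (f : Ω → G) (φ : G → ℝ) :
    ∑ g, law w f g * φ g = ∑ ω, w ω * φ (f ω) := by
  simp only [law, Finset.sum_mul]
  rw [Finset.sum_comm]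
  refine Finset.sum_congr rfl (fun ω _ => ?_)
  rw [Finset.sum_eq_single (f ω)]
  · simp
  · intro b _ hb
    rw [if_neg (fun e => hb e.symm), zero_mul]
  · simp

theorem sum_conv (p q : G → ℝ) (φ : G → ℝ) :
    ∑ g, conv p q g * φ g = ∑ x, ∑ y, p x * q y * φ (x + y) := by
  simp only [conv, Finset.sum_mul]
  rw [Finset.sum_comm]
  refine Finset.sum_congr rfl (fun x _ => ?_)
  refine Fintype.sum_equiv (Equiv.subRight x) _ _ (fun g => ?_)
  simp [Equiv.subRight_apply]

theorem conv_comm (p q : G → ℝ) : conv p q = conv q p := by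
  funext g
  unfold conv
  refine Fintype.sum_equiv (Equiv.subLeft g) _ _ (fun h => ?_)
  simp [Equiv.subLeft_apply, mul_comm]

theorem conv_assoc (p q r : G → ℝ) : conv (conv p q) r = conv p (conv q r) := by
  funext g
  show ∑ h, conv p q h * r (g - h) = _
  rw [sum_conv p q (fun h => r (g - h))]
  unfold conv
  refine Finset.sum_congr rfl (fun x _ => ?_)
  rw [Finset.mul_sum]
  refine Finset.sum_congr rfl (fun y _ => ?_)
  rw [mul_assoc, sub_add_eq_sub_sub]

theorem conv_nn {p q : G → ℝ} (hp : ∀ g, 0 ≤ p g) (hq : ∀ g, 0 ≤ q g) (g : G) : 0 ≤ conv p q g :=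
  Finset.sum_nonneg (fun h _ => mul_nonneg (hp h) (hq _))

theorem conv_sum (p q : G → ℝ) : ∑ g, conv p q g = (∑ g, p g) * ∑ g, q g := by
  have := sum_conv p q (fun _ => 1)
  simp only [mul_one] at this
  rw [this, Finset.sum_mul_sum]

theorem IsLaw.conv {p q : G → ℝ} (hp : IsLaw p) (hq : IsLaw q) : IsLaw (conv p q) :=
  ⟨conv_nn hp.nn hq.nn, by rw [conv_sum, hp.sum, hq.sum, one_mul]⟩

theorem IsLaw.law {Ω : Type} [Fintype Ω] {w : Ω → ℝ} (hw : IsLaw w) (f : Ω → G) : IsLaw (law w f) := by
  refine ⟨fun g => Finset.sum_nonneg (fun ω _ => by split_ifs; exacts [hw.nn ω, le_rfl]), ?_⟩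
  have := sum_law w f (fun _ => 1)
  simp only [mul_one] at this
  rw [this, hw.sum]

theorem IsLaw.ngt {p : G → ℝ} (hp : IsLaw p) : IsLaw (ngt p) :=
  ⟨fun g => hp.nn _, by
    unfold Pool.Agent.Lib.Helper88.Ach.ngt
    rw [← hp.sum]
    exact Fintype.sum_equiv (Equiv.neg G) _ _ (fun g => by simp)⟩

theorem H_ngt (p : G → ℝ) : H (ngt p) = H p := by
  unfold H ngt
  exact Fintype.sum_equiv (Equiv.neg G) _ _ (fun g => by simp)

theorem ngt_conv (p q : G → ℝ) : ngt (conv p q) = conv (ngt p) (ngt q) := by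
  funext g
  unfold ngt conv
  refine Fintype.sum_equiv (Equiv.neg G) _ _ (fun h => ?_)
  simp only [Equiv.neg_apply, neg_neg]
  rw [show -(g - -h) = -g - h by abel]

theorem ngt_ngt (p : G → ℝ) : ngt (ngt p) = p := by funext g; simp [ngt]

theorem law_le {Ω : Type} [Fintype Ω] {w : Ω → ℝ} (hw : ∀ ω, 0 ≤ w ω) (f : Ω → G) (ω : Ω) :
    w ω ≤ law w f (f ω) := by
  unfold law
  have := Finset.single_le_sum (f := fun ω' => if f ω' = f ω then w ω' else 0)
    (fun ω' _ => by split_ifs; exacts [hw ω', le_rfl]) (Finset.mem_univ ω)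
  simpa using this

theorem conv_le {p q : G → ℝ} (hp : ∀ g, 0 ≤ p g) (hq : ∀ g, 0 ≤ q g) (x y : G) :
    p x * q y ≤ conv p q (x + y) := by
  unfold conv
  have := Finset.single_le_sum (f := fun h => p h * q (x + y - h))
    (fun h _ => mul_nonneg (hp h) (hq _)) (Finset.mem_univ x)
  simpa using this

/-- Kaimanovich and Vershik submodularity. -/
theorem kv {p q r : G → ℝ} (hp : IsLaw p) (hq : IsLaw q) (hr : IsLaw r) :
    H (conv (conv p q) r) + H p ≤ H (conv p q) + H (conv p r) := by
  set s := conv (conv p q) r with hs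
  have hs2 : s = conv (conv p r) q := by
    rw [hs, conv_assoc, conv_comm q r, ← conv_assoc]
  have hpq := hp.conv hq
  have hpr := hp.conv hr
  have hS : IsLaw s := hpq.conv hr
  -- entropies as triple sums
  have e1 : H p = - ∑ x, ∑ y, ∑ z, p x * q y * r z * Real.log (p x) := by
    unfold H
    rw [← Finset.sum_neg_distrib]
    refine Finset.sum_congr rfl (fun x _ => ?_)
    have : ∀ y, ∑ z, p x * q y * r z * Real.log (p x) = q y * (p x * Real.log (p x)) := fun y => by
      rw [← Finset.sum_mul, ← Finset.mul_sum, hr.sum]; ring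
    simp only [this]
    rw [← Finset.sum_mul, hq.sum, Real.negMulLog]; ring
  have e2 : H (conv p q) = - ∑ x, ∑ y, ∑ z, p x * q y * r z * Real.log (conv p q (x + y)) := by
    have h1 := sum_conv p q (fun g => Real.log (conv p q g))
    have h2 : H (conv p q) = - ∑ g, conv p q g * Real.log (conv p q g) := by
      unfold H; rw [← Finset.sum_neg_distrib]
      exact Finset.sum_congr rfl (fun x _ => by rw [Real.negMulLog]; ring)
    rw [h2, h1]
    congr 1
    refine Finset.sum_congr rfl (fun x _ => Finset.sum_congr rfl (fun y _ => ?_))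
    have : ∀ z, p x * q y * r z * Real.log (conv p q (x + y)) =
        r z * (p x * q y * Real.log (conv p q (x + y))) := fun z => by ring
    simp only [this]
    rw [← Finset.sum_mul, hr.sum, one_mul]
  have e3 : H (conv p r) = - ∑ x, ∑ y, ∑ z, p x * q y * r z * Real.log (conv p r (x + z)) := by
    have h1 := sum_conv p r (fun g => Real.log (conv p r g))
    have h2 : H (conv p r) = - ∑ g, conv p r g * Real.log (conv p r g) := by
      unfold H; rw [← Finset.sum_neg_distrib]
      exact Finset.sum_congr rfl (fun x _ => by rw [Real.negMulLog]; ring)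
    rw [h2, h1]
    congr 1
    refine Finset.sum_congr rfl (fun x _ => ?_)
    rw [Finset.sum_comm]
    refine Finset.sum_congr rfl (fun z _ => ?_)
    have : ∀ y, p x * q y * r z * Real.log (conv p r (x + z)) =
        q y * (p x * r z * Real.log (conv p r (x + z))) := fun y => by ring
    simp only [this]
    rw [← Finset.sum_mul, hq.sum, one_mul]
  have e4 : H s = - ∑ x, ∑ y, ∑ z, p x * q y * r z * Real.log (s (x + y + z)) := by
    have h1 := sum_conv (conv p q) r (fun g => Real.log (s g))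
    rw [← hs] at h1
    have h2 : H s = - ∑ g, s g * Real.log (s g) := by
      unfold H; rw [← Finset.sum_neg_distrib]
      exact Finset.sum_congr rfl (fun x _ => by rw [Real.negMulLog]; ring)
    rw [h2, h1]
    have h3 : ∀ x, ∑ y, conv p q x * r y * Real.log (s (x + y)) =
        conv p q x * ∑ y, r y * Real.log (s (x + y)) := fun x => by
      rw [Finset.mul_sum]; exact Finset.sum_congr rfl (fun y _ => by ring)
    simp only [h3]
    rw [sum_conv p q (fun g => ∑ y, r y * Real.log (s (g + y)))]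
    congr 1
    refine Finset.sum_congr rfl (fun x _ => Finset.sum_congr rfl (fun y _ => ?_))
    rw [Finset.mul_sum]
    exact Finset.sum_congr rfl (fun z _ => by ring)
  -- pointwise inequality
  have key : ∀ x y z, p x * q y * r z - q y * r z * conv p q (x + y) * conv p r (x + z) / s (x + y + z) ≤
      p x * q y * r z * (Real.log (p x) + Real.log (s (x + y + z)) - Real.log (conv p q (x + y)) -
        Real.log (conv p r (x + z))) := by
    intro x y z
    have hw0 : 0 ≤ p x * q y * r z := mul_nonneg (mul_nonneg (hp.nn x) (hq.nn y)) (hr.nn z)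
    have hu0 : 0 ≤ q y * r z * conv p q (x + y) * conv p r (x + z) / s (x + y + z) :=
      div_nonneg (mul_nonneg (mul_nonneg (mul_nonneg (hq.nn y) (hr.nn z)) (hpq.nn _)) (hpr.nn _)) (hS.nn _)
    rcases hw0.eq_or_lt with h0 | h0
    · rw [← h0]; simp only [zero_mul, zero_sub]; linarith
    · have hpx : 0 < p x := lt_of_le_of_ne (hp.nn x) (fun e => by rw [← e] at h0; simp at h0)
      have hqy : 0 < q y := lt_of_le_of_ne (hq.nn y) (fun e => by rw [← e] at h0; simp at h0)
      have hrz : 0 < r z := lt_of_le_of_ne (hr.nn z) (fun e => by rw [← e] at h0; simp at h0)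
      have h1 : 0 < conv p q (x + y) := lt_of_lt_of_le (mul_pos hpx hqy) (conv_le hp.nn hq.nn x y)
      have h2 : 0 < conv p r (x + z) := lt_of_lt_of_le (mul_pos hpx hrz) (conv_le hp.nn hr.nn x z)
      have h3 : 0 < s (x + y + z) := lt_of_lt_of_le (mul_pos h1 hrz) (conv_le hpq.nn hr.nn (x + y) z)
      have hu : 0 < q y * r z * conv p q (x + y) * conv p r (x + z) / s (x + y + z) := by positivity
      have h4 := klog hw0 hu.le (fun e => absurd e hu.ne')
      refine h4.trans (le_of_eq ?_)
      congr 1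
      rw [Real.log_div (by positivity) h3.ne', Real.log_mul (by positivity) h2.ne',
        Real.log_mul (by positivity) h1.ne', Real.log_mul (by positivity) (by positivity),
        Real.log_mul (by positivity) (by positivity), Real.log_mul (by positivity) (by positivity)]
      ring
  -- sum of u
  have hu : ∑ x, ∑ y, ∑ z, q y * r z * conv p q (x + y) * conv p r (x + z) / s (x + y + z) ≤ 1 := by
    have h1 : ∑ x, ∑ y, ∑ z, q y * r z * conv p q (x + y) * conv p r (x + z) / s (x + y + z) =
        ∑ g, ∑ y, ∑ z, q y * r z * conv p q (g - z) * conv p r (g - y) / s g := by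
      rw [Finset.sum_comm, Finset.sum_comm (s := univ) (t := univ) (f := fun g y => ∑ z, q y * r z * conv p q (g - z) * conv p r (g - y) / s g)]
      refine Finset.sum_congr rfl (fun y _ => ?_)
      rw [Finset.sum_comm, Finset.sum_comm (s := univ) (t := univ) (f := fun g z => q y * r z * conv p q (g - z) * conv p r (g - y) / s g)]
      refine Finset.sum_congr rfl (fun z _ => ?_)
      refine Fintype.sum_equiv (Equiv.addRight (y + z)) _ _ (fun x => ?_)
      simp only [Equiv.coe_addRight]
      rw [show x + (y + z) - z = x + y by abel, show x + (y + z) - y = x + z by abel,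
        show x + (y + z) = x + y + z by abel]
    rw [h1, ← hS.sum]
    refine Finset.sum_le_sum (fun g _ => ?_)
    have h2 : ∑ y, ∑ z, q y * r z * conv p q (g - z) * conv p r (g - y) / s g =
        (∑ y, q y * conv p r (g - y)) * (∑ z, r z * conv p q (g - z)) / s g := by
      rw [Finset.sum_mul_sum, Finset.sum_div]
      refine Finset.sum_congr rfl (fun y _ => ?_)
      rw [Finset.sum_div]
      exact Finset.sum_congr rfl (fun z _ => by ring)
    have h3 : ∑ y, q y * conv p r (g - y) = s g := by rw [hs2, conv_comm (conv p r) q]; rfl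
    have h4 : ∑ z, r z * conv p q (g - z) = s g := by rw [hs, conv_comm (conv p q) r]; rfl
    rw [h2, h3, h4]
    rcases (hS.nn g).eq_or_lt with h0 | h0
    · rw [← h0]; simp
    · rw [mul_div_assoc, div_self h0.ne', mul_one]
  have hsum := Finset.sum_le_sum (s := univ) (fun x _ => Finset.sum_le_sum (s := univ) (fun y _ =>
    Finset.sum_le_sum (s := univ) (fun z _ => key x y z)))
  have hw : ∑ x, ∑ y, ∑ z, p x * q y * r z = 1 := by
    have : ∀ x y, ∑ z, p x * q y * r z = p x * q y := fun x y => by rw [← Finset.mul_sum, hr.sum, mul_one]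
    simp only [this]
    have : ∀ x, ∑ y, p x * q y = p x := fun x => by rw [← Finset.mul_sum, hq.sum, mul_one]
    simp only [this]
    exact hp.sum
  simp only [Finset.sum_sub_distrib, mul_sub, mul_add, Finset.sum_add_distrib] at hsum
  rw [hw] at hsum
  rw [e1, e2, e3, e4]
  linarith

theorem H_eq (p : G → ℝ) : H p = - ∑ g, p g * Real.log (p g) := by
  unfold H
  rw [← Finset.sum_neg_distrib]
  exact Finset.sum_congr rfl (fun x _ => by rw [Real.negMulLog]; ring)

theorem H_law {Ω : Type} [Fintype Ω] (w : Ω → ℝ) (f : Ω → G) :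
    H (law w f) = - ∑ ω, w ω * Real.log (law w f (f ω)) := by
  rw [H_eq, sum_law w f (fun g => Real.log (law w f g))]

/-- Ruzsa triangle inequality for a dependent pair `(a, b)` and an independent `z`. -/
theorem ruzsa {Ω : Type} [Fintype Ω] {w : Ω → ℝ} (hw : IsLaw w) (a b : Ω → G) {z : G → ℝ} (hz : IsLaw z) :
    H (law w (fun ω => a ω + b ω)) + H z ≤ H (conv (law w a) (ngt z)) + H (conv (law w b) z) := by
  set P := conv (law w a) (ngt z) with hP
  set Q := conv (law w b) z with hQ
  set S := law w (fun ω => a ω + b ω) with hS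
  have hPl : IsLaw P := (hw.law a).conv hz.ngt
  have hQl : IsLaw Q := (hw.law b).conv hz
  have hSl : IsLaw S := hw.law _
  have e1 : H z = - ∑ ω, ∑ g, w ω * z g * Real.log (z g) := by
    rw [H_eq]
    congr 1
    have : ∀ ω, ∑ g, w ω * z g * Real.log (z g) = w ω * ∑ g, z g * Real.log (z g) := fun ω => by
      rw [Finset.mul_sum]; exact Finset.sum_congr rfl (fun y _ => by ring)
    simp only [this]
    rw [← Finset.sum_mul, hw.sum, one_mul]
  have e2 : H S = - ∑ ω, ∑ g, w ω * z g * Real.log (S (a ω + b ω)) := by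
    rw [hS, H_law]
    congr 1
    refine Finset.sum_congr rfl (fun ω _ => ?_)
    have : ∀ g, w ω * z g * Real.log (law w (fun ω => a ω + b ω) (a ω + b ω)) =
      z g * (w ω * Real.log (law w (fun ω => a ω + b ω) (a ω + b ω))) := fun g => by ring
    simp only [this]
    rw [← Finset.sum_mul, hz.sum, one_mul]
  have e3 : H P = - ∑ ω, ∑ g, w ω * z g * Real.log (P (a ω - g)) := by
    rw [H_eq]
    congr 1
    rw [hP, sum_conv, ← hP]
    have : ∀ x, ∑ y, law w a x * ngt z y * Real.log (P (x + y)) =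
        law w a x * ∑ y, ngt z y * Real.log (P (x + y)) := fun x => by
      rw [Finset.mul_sum]; exact Finset.sum_congr rfl (fun y _ => by ring)
    simp only [this]
    rw [sum_law w a (fun x => ∑ y, ngt z y * Real.log (P (x + y)))]
    refine Finset.sum_congr rfl (fun ω _ => ?_)
    rw [Finset.mul_sum]
    refine Fintype.sum_equiv (Equiv.neg G) _ _ (fun g => ?_)
    simp only [Equiv.neg_apply, ngt, sub_neg_eq_add]
    ring
  have e4 : H Q = - ∑ ω, ∑ g, w ω * z g * Real.log (Q (b ω + g)) := by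
    rw [H_eq]
    congr 1
    rw [hQ, sum_conv, ← hQ]
    have : ∀ x, ∑ y, law w b x * z y * Real.log (Q (x + y)) =
        law w b x * ∑ y, z y * Real.log (Q (x + y)) := fun x => by
      rw [Finset.mul_sum]; exact Finset.sum_congr rfl (fun y _ => by ring)
    simp only [this]
    rw [sum_law w b (fun x => ∑ y, z y * Real.log (Q (x + y)))]
    refine Finset.sum_congr rfl (fun ω _ => ?_)
    rw [Finset.mul_sum]
    exact Finset.sum_congr rfl (fun y _ => by ring)
  have key : ∀ ω g, w ω * z g - w ω * P (a ω - g) * Q (b ω + g) / S (a ω + b ω) ≤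
      w ω * z g * (Real.log (z g) + Real.log (S (a ω + b ω)) - Real.log (P (a ω - g)) -
        Real.log (Q (b ω + g))) := by
    intro ω g
    have hw0 : 0 ≤ w ω * z g := mul_nonneg (hw.nn ω) (hz.nn g)
    have hu0 : 0 ≤ w ω * P (a ω - g) * Q (b ω + g) / S (a ω + b ω) :=
      div_nonneg (mul_nonneg (mul_nonneg (hw.nn ω) (hPl.nn _)) (hQl.nn _)) (hSl.nn _)
    rcases hw0.eq_or_lt with h0 | h0
    · rw [← h0]; simp only [zero_mul, zero_sub]; linarith
    · have hwω : 0 < w ω := lt_of_le_of_ne (hw.nn ω) (fun e => by rw [← e] at h0; simp at h0)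
      have hzg : 0 < z g := lt_of_le_of_ne (hz.nn g) (fun e => by rw [← e] at h0; simp at h0)
      have hla : 0 < law w a (a ω) := lt_of_lt_of_le hwω (law_le hw.nn a ω)
      have hlb : 0 < law w b (b ω) := lt_of_lt_of_le hwω (law_le hw.nn b ω)
      have h1 : 0 < P (a ω - g) := by
        have := conv_le (hw.law a).nn hz.ngt.nn (a ω) (-g)
        rw [← hP, ← sub_eq_add_neg] at this
        refine lt_of_lt_of_le (mul_pos hla ?_) this
        simpa [ngt] using hzg
      have h2 : 0 < Q (b ω + g) := lt_of_lt_of_le (mul_pos hlb hzg) (conv_le (hw.law b).nn hz.nn (b ω) g)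
      have h3 : 0 < S (a ω + b ω) := lt_of_lt_of_le hwω (law_le hw.nn (fun ω => a ω + b ω) ω)
      have hu : 0 < w ω * P (a ω - g) * Q (b ω + g) / S (a ω + b ω) := by positivity
      have h4 := klog hw0 hu.le (fun e => absurd e hu.ne')
      refine h4.trans (le_of_eq ?_)
      congr 1
      rw [Real.log_div (by positivity) h3.ne', Real.log_mul (by positivity) h2.ne',
        Real.log_mul (by positivity) h1.ne', Real.log_mul (by positivity) (by positivity)]
      ring
  have hu : ∑ ω, ∑ g, w ω * P (a ω - g) * Q (b ω + g) / S (a ω + b ω) ≤ 1 := by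
    have h1 : ∀ ω, ∑ g, w ω * P (a ω - g) * Q (b ω + g) / S (a ω + b ω) =
        w ω * (conv P Q (a ω + b ω) / S (a ω + b ω)) := by
      intro ω
      rw [conv, Finset.sum_div, Finset.mul_sum]
      refine Fintype.sum_equiv (Equiv.subLeft (a ω)) _ _ (fun g => ?_)
      simp only [Equiv.subLeft_apply]
      rw [show a ω + b ω - (a ω - g) = b ω + g by abel]
      ring
    simp only [h1]
    rw [← sum_law w (fun ω => a ω + b ω) (fun g => conv P Q g / S g), ← hS, ← (hPl.conv hQl).sum]
    refine Finset.sum_le_sum (fun g _ => ?_)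
    rcases (hSl.nn g).eq_or_lt with h0 | h0
    · rw [← h0]; simp only [zero_mul]; exact (hPl.conv hQl).nn g
    · rw [mul_div_cancel₀ _ h0.ne']
  have hsum := Finset.sum_le_sum (s := univ) (fun ω _ => Finset.sum_le_sum (s := univ) (fun g _ => key ω g))
  have hw1 : ∑ ω, ∑ g, w ω * z g = 1 := by
    have : ∀ ω, ∑ g, w ω * z g = w ω := fun ω => by rw [← Finset.mul_sum, hz.sum, mul_one]
    simp only [this]
    exact hw.sum
  simp only [Finset.sum_sub_distrib, mul_sub, mul_add, Finset.sum_add_distrib] at hsum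
  rw [hw1] at hsum
  rw [e1, e2, e3, e4]
  linarith

/-- Point mass. -/
def pt (a : G) (g : G) : ℝ := if g = a then 1 else 0

theorem pt_law (a : G) : IsLaw (pt a) := ⟨fun g => by unfold pt; split_ifs <;> norm_num, by simp [pt]⟩

theorem conv_pt_zero (p : G → ℝ) : conv p (pt 0) = p := by
  funext g
  unfold conv pt
  rw [Finset.sum_eq_single g]
  · simp
  · intro b _ hb
    rw [if_neg (fun e => hb (sub_eq_zero.mp e).symm), mul_zero]
  · simp

/-- Convolution powers. -/
def cpow (p : G → ℝ) : ℕ → G → ℝ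
  | 0 => pt 0
  | n + 1 => conv (cpow p n) p

theorem cpow_law {p : G → ℝ} (hp : IsLaw p) (n : ℕ) : IsLaw (cpow p n) := by
  induction n with
  | zero => exact pt_law 0
  | succ n ih => exact ih.conv hp

theorem cpow_add (p : G → ℝ) (m n : ℕ) : cpow p (m + n) = conv (cpow p m) (cpow p n) := by
  induction n with
  | zero => rw [Nat.add_zero, cpow, conv_pt_zero]
  | succ n ih => rw [← Nat.add_assoc, cpow, ih, cpow, conv_assoc]

theorem H_pt (a : G) : H (pt a) = 0 := by
  unfold H pt
  refine Finset.sum_eq_zero (fun g _ => ?_)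
  split_ifs <;> simp

theorem H_nonneg {p : G → ℝ} (hp : IsLaw p) : 0 ≤ H p := by
  refine Finset.sum_nonneg (fun g _ => Real.negMulLog_nonneg (hp.nn g) ?_)
  rw [← hp.sum]
  exact Finset.single_le_sum (fun g _ => hp.nn g) (Finset.mem_univ g)

theorem H_le {p : G → ℝ} (hp : IsLaw p) : H p ≤ Real.log (Fintype.card G) := by
  have hc : (0:ℝ) < Fintype.card G := by exact_mod_cast Fintype.card_pos
  have h1 : ∀ g, p g - 1 / Fintype.card G ≤ p g * (Real.log (p g) + Real.log (Fintype.card G)) := by
    intro g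
    have := klog (hp.nn g) (y := 1 / Fintype.card G) (by positivity) (fun e => absurd e (by positivity))
    rwa [one_div, Real.log_inv, sub_neg_eq_add, ← one_div] at this
  have h2 := Finset.sum_le_sum (s := univ) (fun g _ => h1 g)
  simp only [mul_add, Finset.sum_add_distrib, Finset.sum_sub_distrib] at h2
  rw [← Finset.sum_mul, hp.sum, Finset.sum_const, Finset.card_univ, nsmul_eq_mul, mul_one_div,
    div_self hc.ne', one_mul] at h2
  rw [H_eq]
  linarith

/-- Entropy does not decrease under convolution with a sub-law. -/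
theorem H_conv_ge {p b : G → ℝ} (hp : ∀ g, 0 ≤ p g) (hp1 : ∑ g, p g = 1) (hb : ∀ g, 0 ≤ b g)
    (hb1 : ∑ g, b g ≤ 1) : (∑ g, b g) * H p ≤ H (conv b p) := by
  have e1 : (∑ g : G, b g) * H p = - ∑ x : G, ∑ y : G, b x * p y * Real.log (p y) := by
    rw [H_eq, mul_neg, Finset.sum_mul]
    congr 1
    refine Finset.sum_congr rfl (fun x _ => ?_)
    rw [Finset.mul_sum]
    exact Finset.sum_congr rfl (fun y _ => by ring)
  have e2 : H (conv b p) = - ∑ x : G, ∑ y : G, b x * p y * Real.log (conv b p (x + y)) := by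
    rw [H_eq, sum_conv b p (fun g => Real.log (conv b p g))]
  have key : ∀ x y, b x * p y - b x * conv b p (x + y) ≤
      b x * p y * (Real.log (p y) - Real.log (conv b p (x + y))) := by
    intro x y
    rcases (mul_nonneg (hb x) (hp y)).eq_or_lt with h0 | h0
    · rw [← h0]; simp only [zero_mul, zero_sub]
      have := mul_nonneg (hb x) (conv_nn hb hp (x + y)); linarith
    · have hbx : 0 < b x := lt_of_le_of_ne (hb x) (fun e => by rw [← e] at h0; simp at h0)
      have hpy : 0 < p y := lt_of_le_of_ne (hp y) (fun e => by rw [← e] at h0; simp at h0)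
      have h1 : 0 < conv b p (x + y) := lt_of_lt_of_le h0 (conv_le hb hp x y)
      have := klog hpy.le h1.le (fun e => absurd e h1.ne')
      have h2 := mul_le_mul_of_nonneg_left this (hb x)
      linarith [mul_sub (b x) (p y) (conv b p (x+y)),
        mul_assoc (b x) (p y) (Real.log (p y) - Real.log (conv b p (x + y)))]
  have hsum := Finset.sum_le_sum (s := univ) (fun x _ => Finset.sum_le_sum (s := univ) (fun y _ => key x y))
  have hA : ∑ x : G, ∑ y : G, b x * p y = ∑ x : G, b x := by
    refine Finset.sum_congr rfl (fun x _ => ?_)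
    rw [← Finset.mul_sum, hp1, mul_one]
  have hB : ∑ x : G, ∑ y : G, b x * conv b p (x + y) = (∑ x : G, b x) * ∑ x : G, b x := by
    rw [Finset.sum_mul]
    refine Finset.sum_congr rfl (fun x _ => ?_)
    rw [← Finset.mul_sum]
    congr 1
    have h1 : ∑ y, conv b p (x + y) = ∑ g, conv b p g :=
      Fintype.sum_equiv (Equiv.addLeft x) _ _ (fun y => rfl)
    rw [h1, conv_sum, hp1, mul_one]
  have hb0 : 0 ≤ ∑ x : G, b x := Finset.sum_nonneg (fun x _ => hb x)
  simp only [Finset.sum_sub_distrib, mul_sub] at hsum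
  rw [hA, hB] at hsum
  rw [e1, e2]
  nlinarith

theorem H_add_le {p q : G → ℝ} (hp : ∀ g, 0 ≤ p g) (hq : ∀ g, 0 ≤ q g) :
    H (fun g => p g + q g) ≤ H p + H q := by
  have aux : ∀ x y : ℝ, 0 ≤ x → 0 ≤ y → x * Real.log x ≤ x * Real.log (x + y) := by
    intro x y hx hy
    rcases hx.eq_or_lt with h | h
    · rw [← h]; simp
    · exact mul_le_mul_of_nonneg_left (Real.log_le_log h (by linarith)) hx
  unfold H
  rw [← Finset.sum_add_distrib]
  refine Finset.sum_le_sum (fun g _ => ?_)
  have h1 := aux (p g) (q g) (hp g) (hq g)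
  have h2 := aux (q g) (p g) (hq g) (hp g)
  rw [add_comm (q g) (p g)] at h2
  simp only [Real.negMulLog]
  nlinarith

theorem le_H_add {p q : G → ℝ} (hp : ∀ g, 0 ≤ p g) (hq : ∀ g, 0 ≤ q g)
    (hs : (∑ g, p g) + ∑ g, q g ≤ 1) :
    H p + H q ≤ H (fun g => p g + q g) + Real.log 2 := by
  have hl2 : 0 < Real.log 2 := Real.log_pos one_lt_two
  have aux : ∀ x y : ℝ, 0 ≤ x → 0 ≤ y → Real.negMulLog x + Real.negMulLog y ≤
      Real.negMulLog (x + y) + (x + y) * Real.log 2 := by
    intro x y hx hy
    rcases (add_nonneg hx hy).eq_or_lt with h | h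
    · have hx0 : x = 0 := by linarith
      have hy0 : y = 0 := by linarith
      subst hx0; subst hy0; simp
    · have h1 := klog hx (y := (x + y) / 2) (by linarith) (fun e => by linarith)
      have h2 := klog hy (y := (x + y) / 2) (by linarith) (fun e => by linarith)
      rw [Real.log_div h.ne' two_ne_zero] at h1 h2
      simp only [Real.negMulLog]
      nlinarith
  have h1 := Finset.sum_le_sum (s := univ) (fun g _ => aux (p g) (q g) (hp g) (hq g))
  simp only [Finset.sum_add_distrib, ← Finset.sum_mul] at h1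
  unfold H
  nlinarith

theorem conv_add_left (p q r : G → ℝ) : conv (fun g => p g + q g) r = fun g => conv p r g + conv q r g := by
  funext g
  unfold conv
  rw [← Finset.sum_add_distrib]
  exact Finset.sum_congr rfl (fun h _ => by ring)

/-- The law of `± v`, the sign being a function of `v`. -/
def flipLaw (s : G → Bool) (μ : G → ℝ) (g : G) : ℝ :=
  (if s g then μ g else 0) + (if s (-g) then 0 else μ (-g))

theorem flipLaw_law (s : G → Bool) {μ : G → ℝ} (hμ : IsLaw μ) : IsLaw (flipLaw s μ) := by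
  refine ⟨fun g => ?_, ?_⟩
  · unfold flipLaw
    refine add_nonneg ?_ ?_ <;> split_ifs <;> first | exact hμ.nn _ | exact le_rfl
  · unfold flipLaw
    rw [Finset.sum_add_distrib]
    have h1 : ∑ g : G, (if s (-g) then 0 else μ (-g)) = ∑ g : G, (if s g then 0 else μ g) :=
      Fintype.sum_equiv (Equiv.neg G) _ _ (fun g => rfl)
    rw [h1, ← Finset.sum_add_distrib, ← hμ.sum]
    exact Finset.sum_congr rfl (fun g _ => by split_ifs <;> simp)

/-- Class splitting. -/
theorem split_class (s : G → Bool) {μ ξ : G → ℝ} (hμ : IsLaw μ) (hξ : IsLaw ξ) :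
    H (conv (ngt μ) ξ) + H ξ ≤ H (conv (flipLaw s μ) ξ) + H (conv (ngt (flipLaw s μ)) ξ) + 2 * Real.log 2 := by
  set a : G → ℝ := fun g => if s g then μ g else 0 with ha
  set b : G → ℝ := fun g => if s g then 0 else μ g with hb
  have ha0 : ∀ g, 0 ≤ a g := fun g => by simp only [ha]; split_ifs; exacts [hμ.nn g, le_rfl]
  have hb0 : ∀ g, 0 ≤ b g := fun g => by simp only [hb]; split_ifs; exacts [le_rfl, hμ.nn g]
  have hna0 : ∀ g, 0 ≤ ngt a g := fun g => ha0 _
  have hnb0 : ∀ g, 0 ≤ ngt b g := fun g => hb0 _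
  have hsum : (∑ g, a g) + ∑ g, b g = 1 := by
    rw [← Finset.sum_add_distrib, ← hμ.sum]
    exact Finset.sum_congr rfl (fun g _ => by simp only [ha, hb]; split_ifs <;> simp)
  have hsa : 0 ≤ ∑ g, a g := Finset.sum_nonneg (fun g _ => ha0 g)
  have hsb : 0 ≤ ∑ g, b g := Finset.sum_nonneg (fun g _ => hb0 g)
  have hna : ∑ g, ngt a g = ∑ g, a g := Fintype.sum_equiv (Equiv.neg G) _ _ (fun g => rfl)
  have hnb : ∑ g, ngt b g = ∑ g, b g := Fintype.sum_equiv (Equiv.neg G) _ _ (fun g => rfl)
  have e1 : ngt μ = fun g => ngt a g + ngt b g := by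
    funext g; simp only [ngt, ha, hb]; split_ifs <;> simp
  have e2 : flipLaw s μ = fun g => a g + ngt b g := by
    funext g; simp only [flipLaw, ngt, ha, hb]
  have e3 : ngt (flipLaw s μ) = fun g => ngt a g + b g := by
    funext g; simp only [flipLaw, ngt, ha, hb, neg_neg]
  have h1 : H (conv (ngt μ) ξ) ≤ H (conv (ngt a) ξ) + H (conv (ngt b) ξ) := by
    rw [e1, conv_add_left]
    exact H_add_le (conv_nn hna0 hξ.nn) (conv_nn hnb0 hξ.nn)
  have h2 : H (conv a ξ) + H (conv (ngt b) ξ) ≤ H (conv (flipLaw s μ) ξ) + Real.log 2 := by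
    rw [e2, conv_add_left]
    refine le_H_add (conv_nn ha0 hξ.nn) (conv_nn hnb0 hξ.nn) ?_
    rw [conv_sum, conv_sum, hξ.sum, mul_one, mul_one, hnb, hsum]
  have h3 : H (conv (ngt a) ξ) + H (conv b ξ) ≤ H (conv (ngt (flipLaw s μ)) ξ) + Real.log 2 := by
    rw [e3, conv_add_left]
    refine le_H_add (conv_nn hna0 hξ.nn) (conv_nn hb0 hξ.nn) ?_
    rw [conv_sum, conv_sum, hξ.sum, mul_one, mul_one, hna, hsum]
  have h4 := H_conv_ge hξ.nn hξ.sum ha0 (by linarith)
  have h5 := H_conv_ge hξ.nn hξ.sum hb0 (by linarith)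
  have h6 : H ξ = (∑ g, a g) * H ξ + (∑ g, b g) * H ξ := by rw [← add_mul, hsum, one_mul]
  linarith

theorem law_prod_fst {Ω : Type} [Fintype Ω] (w : Ω → ℝ) {q : G → ℝ} (hq : IsLaw q) (f : Ω → G) :
    law (fun x : Ω × G => w x.1 * q x.2) (fun x => f x.1) = law w f := by
  funext g
  unfold law
  rw [Fintype.sum_prod_type]
  refine Finset.sum_congr rfl (fun ω _ => ?_)
  dsimp only
  split_ifs
  · rw [← Finset.mul_sum, hq.sum, mul_one]
  · simp

theorem law_prod_add {Ω : Type} [Fintype Ω] (w : Ω → ℝ) (q : G → ℝ) (f : Ω → G) :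
    law (fun x : Ω × G => w x.1 * q x.2) (fun x => f x.1 + x.2) = conv (law w f) q := by
  funext g
  rw [conv, sum_law w f (fun x => q (g - x))]
  unfold law
  rw [Fintype.sum_prod_type]
  refine Finset.sum_congr rfl (fun ω _ => ?_)
  dsimp only
  rw [Finset.sum_eq_single (g - f ω)]
  · simp
  · intro b _ hb
    rw [if_neg]
    intro e
    exact hb (by rw [← e]; abel)
  · simp

theorem prod_law {Ω : Type} [Fintype Ω] {w : Ω → ℝ} (hw : IsLaw w) {q : G → ℝ} (hq : IsLaw q) :
    IsLaw (fun x : Ω × G => w x.1 * q x.2) := by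
  refine ⟨fun x => mul_nonneg (hw.nn _) (hq.nn _), ?_⟩
  rw [Fintype.sum_prod_type]
  have : ∀ ω, ∑ g, w ω * q g = w ω := fun ω => by rw [← Finset.mul_sum, hq.sum, mul_one]
  simp only [this]
  exact hw.sum

theorem ruzsa' {Ω : Type} [Fintype Ω] {w : Ω → ℝ} (hw : IsLaw w) (a b : Ω → G) {q z : G → ℝ}
    (hq : IsLaw q) (hz : IsLaw z) :
    H (conv (law w (fun ω => a ω + b ω)) q) + H z ≤
      H (conv (law w a) (ngt z)) + H (conv (conv (law w b) q) z) := by
  have := ruzsa (prod_law hw hq) (fun x => a x.1) (fun x => b x.1 + x.2) hz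
  rw [law_prod_fst w hq a, law_prod_add w q b] at this
  have e : (fun x : Ω × G => a x.1 + (b x.1 + x.2)) = (fun x : Ω × G => (fun ω => a ω + b ω) x.1 + x.2) := by
    funext x; dsimp only; abel
  rw [e, law_prod_add w q (fun ω => a ω + b ω)] at this
  exact this

theorem law_zero {Ω : Type} [Fintype Ω] {w : Ω → ℝ} (hw : IsLaw w) : law w (fun _ => (0:G)) = pt 0 := by
  funext g
  unfold law pt
  by_cases h : g = 0
  · subst h; simp [hw.sum]
  · rw [if_neg h]
    refine Finset.sum_eq_zero (fun ω _ => ?_)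
    rw [if_neg (fun e => h e.symm)]

theorem word_bound {Ω : Type} [Fintype Ω] {w : Ω → ℝ} (hw : IsLaw w) {ξ : G → ℝ} (hξ : IsLaw ξ) :
    ∀ (t : ℕ) (v : Fin t → Ω → G) {q : G → ℝ} (_ : IsLaw q),
    H (conv (law w (fun ω => ∑ i, v i ω)) q) ≤
      ∑ i, (H (conv (law w (v i)) (ngt ξ)) - H ξ) + H (conv q (cpow ξ t)) := by
  intro t
  induction t with
  | zero =>
    intro v q hq
    simp only [Finset.univ_eq_empty, Finset.sum_empty, cpow, zero_add]
    rw [law_zero hw, conv_comm]
  | succ t ih =>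
    intro v q hq
    have h1 := ruzsa' hw (v 0) (fun ω => ∑ i : Fin t, v i.succ ω) hq hξ
    have h2 := ih (fun i => v i.succ) (hq.conv hξ)
    rw [← conv_assoc] at h2
    rw [conv_assoc q ξ, conv_comm ξ (cpow ξ t)] at h2
    simp only [Fin.sum_univ_succ]
    have h3 : cpow ξ (t + 1) = conv (cpow ξ t) ξ := rfl
    rw [h3]
    linarith

theorem H_avg {t : ℕ} (p : Fin t → G → ℝ) (hp : ∀ i g, 0 ≤ p i g) :
    ∑ i, H (p i) ≤ t * H (fun g => (∑ i, p i g) / t) := by
  rcases Nat.eq_zero_or_pos t with h0 | h0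
  · subst h0; simp
  have ht : (0:ℝ) < t := by exact_mod_cast h0
  simp only [H_eq]
  rw [Finset.sum_neg_distrib, mul_neg, neg_le_neg_iff, Finset.sum_comm, Finset.mul_sum]
  refine Finset.sum_le_sum (fun g _ => ?_)
  set y := (∑ i, p i g) / t with hy
  have hy0 : 0 ≤ y := div_nonneg (Finset.sum_nonneg (fun i _ => hp i g)) ht.le
  have hyt : t * y = ∑ i, p i g := by rw [hy]; field_simp
  have h1 : ∀ i, p i g - y ≤ p i g * (Real.log (p i g) - Real.log y) := fun i =>
    klog (hp i g) hy0 (fun e => by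
      rw [e, mul_zero] at hyt
      exact (Finset.sum_eq_zero_iff_of_nonneg (fun i _ => hp i g)).mp hyt.symm i (Finset.mem_univ i))
  have h2 := Finset.sum_le_sum (s := univ) (fun i _ => h1 i)
  simp only [mul_sub, Finset.sum_sub_distrib, Finset.sum_const, Finset.card_univ, Fintype.card_fin,
    nsmul_eq_mul, ← Finset.sum_mul] at h2
  rw [← hyt] at h2
  linarith

theorem conv_avg {t : ℕ} (p : Fin t → G → ℝ) (q : G → ℝ) :
    conv (fun g => (∑ i, p i g) / t) q = fun g => (∑ i, conv (p i) q g) / t := by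
  funext g
  unfold conv
  rw [Finset.sum_comm, Finset.sum_div]
  refine Finset.sum_congr rfl (fun h _ => ?_)
  rw [← Finset.sum_mul]; ring

theorem cpow_mul (p : G → ℝ) (m n : ℕ) : cpow (cpow p m) n = cpow p (m * n) := by
  induction n with
  | zero => rfl
  | succ n ih => rw [cpow, ih, Nat.mul_succ, cpow_add]

/-- increments of the entropies of convolution powers decrease -/
theorem incr_anti {p : G → ℝ} (hp : IsLaw p) (n : ℕ) :
    H (cpow p (n + 2)) - H (cpow p (n + 1)) ≤ H (cpow p (n + 1)) - H (cpow p n) := by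
  have := kv (cpow_law hp n) hp hp
  have h1 : cpow p (n + 1) = conv (cpow p n) p := rfl
  have h2 : cpow p (n + 2) = conv (conv (cpow p n) p) p := rfl
  rw [h1, h2]; linarith

theorem incr_le {p : G → ℝ} (hp : IsLaw p) {K : ℕ} (hK : 1 ≤ K) :
    H (cpow p (K + 1)) - H (cpow p K) ≤ Real.log (Fintype.card G) / K := by
  have hanti : ∀ m n, m ≤ n → H (cpow p (n + 1)) - H (cpow p n) ≤ H (cpow p (m + 1)) - H (cpow p m) := by
    intro m n hmn
    induction n, hmn using Nat.le_induction with
    | base => exact le_rfl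
    | succ n _ ih => exact (incr_anti hp n).trans ih
  have h1 : (K:ℝ) * (H (cpow p (K + 1)) - H (cpow p K)) ≤ H (cpow p K) - H (cpow p 0) := by
    rw [← Finset.sum_range_sub (fun n => H (cpow p n)) K]
    calc (K:ℝ) * (H (cpow p (K + 1)) - H (cpow p K)) = ∑ _i ∈ Finset.range K, (H (cpow p (K + 1)) - H (cpow p K)) := by
          rw [Finset.sum_const, Finset.card_range, nsmul_eq_mul]
      _ ≤ _ := Finset.sum_le_sum (fun n hn => hanti n K (Finset.mem_range.mp hn).le)
  have h2 : H (cpow p 0) = 0 := H_pt 0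
  have h3 := H_le (cpow_law hp K)
  have hK0 : (0:ℝ) < K := by exact_mod_cast hK
  rw [le_div_iff₀ hK0]
  linarith

theorem incr_le' {p : G → ℝ} (hp : IsLaw p) {K : ℕ} (hK : 1 ≤ K) (K' : ℕ) :
    H (cpow p (K + K')) - H (cpow p K) ≤ K' * Real.log (Fintype.card G) / K := by
  have hK0 : (0:ℝ) < K := by exact_mod_cast hK
  have hlog : 0 ≤ Real.log (Fintype.card G) := Real.log_natCast_nonneg _
  induction K' with
  | zero => simp
  | succ n ih =>
    have h1 := incr_le hp (K := K + n) (by omega)
    have h2 : Real.log (Fintype.card G) / ((K + n : ℕ):ℝ) ≤ Real.log (Fintype.card G) / K := by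
      apply div_le_div_of_nonneg_left hlog hK0
      push_cast; linarith [Nat.cast_nonneg (α := ℝ) n]
    have h3 : ((n + 1 : ℕ):ℝ) * Real.log (Fintype.card G) / K =
        n * Real.log (Fintype.card G) / K + Real.log (Fintype.card G) / K := by
      push_cast; ring
    rw [h3, ← Nat.add_assoc]
    linarith

theorem conv_ngt_le {p : G → ℝ} (hp : IsLaw p) {K K' : ℕ} (hK : 1 ≤ K) (hK' : 1 ≤ K') :
    H (conv (ngt p) (cpow p K)) ≤ H (cpow p K) + K' * Real.log (Fintype.card G) / K +
      Real.log (Fintype.card G) / K' := by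
  have hξ := cpow_law hp K
  have hζ := cpow_law hp K'
  have h0 := ruzsa' (Ω := G) hξ (fun g => g) (fun _ => 0) hp.ngt hζ.ngt
  have e0 : law (cpow p K) (fun g => g) = cpow p K := by
    funext g
    unfold law
    rw [Finset.sum_eq_single g] <;> simp +contextual
  have e1 : law (cpow p K) (fun ω => ω + 0) = cpow p K := by simpa using e0
  rw [e0, e1, law_zero hξ, conv_comm (pt 0), conv_pt_zero, ngt_ngt, ← ngt_conv, H_ngt, H_ngt,
    conv_comm p (cpow p K')] at h0
  have h1 := incr_le' hp hK K'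
  have h2 := incr_le hp hK'
  have h3 : conv (cpow p K) (cpow p K') = cpow p (K + K') := (cpow_add p K K').symm
  have h4 : conv (cpow p K') p = cpow p (K' + 1) := rfl
  rw [h3, h4, conv_comm (cpow p K) (ngt p)] at h0
  linarith

/-- The average of the letter laws. -/
noncomputable def avg {Ω : Type} [Fintype Ω] (w : Ω → ℝ) {t : ℕ} (v : Fin t → Ω → G) (g : G) : ℝ :=
  (∑ i, law w (v i) g) / t

theorem avg_law {Ω : Type} [Fintype Ω] {w : Ω → ℝ} (hw : IsLaw w) {t : ℕ} (ht : 1 ≤ t) (v : Fin t → Ω → G) :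
    IsLaw (avg w v) := by
  have ht0 : (0:ℝ) < t := by exact_mod_cast ht
  refine ⟨fun g => div_nonneg (Finset.sum_nonneg (fun i _ => (hw.law (v i)).nn g)) ht0.le, ?_⟩
  unfold avg
  rw [← Finset.sum_div, Finset.sum_comm]
  simp only [(hw.law _).sum]
  rw [Finset.sum_const, Finset.card_univ, Fintype.card_fin, nsmul_eq_mul, mul_one, div_self ht0.ne']

/-- Universal spread: the entropy of a sum of `t` (dependent) letters is at most that of a sum of `t ^ 5`
independent signed letters drawn from the usage law, up to a small error, for every sign pattern. -/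
theorem spread {Ω : Type} [Fintype Ω] {w : Ω → ℝ} (hw : IsLaw w) {t : ℕ} (ht : 1 ≤ t)
    (v : Fin t → Ω → G) (s : G → Bool) :
    H (law w (fun ω => ∑ i, v i ω)) ≤ H (cpow (flipLaw s (avg w v)) (t ^ 5)) +
      2 * t * Real.log 2 + 3 / t * Real.log (Fintype.card G) := by
  set μ := avg w v with hμ
  have hμl : IsLaw μ := avg_law hw ht v
  set X := flipLaw s μ with hX
  have hXl : IsLaw X := flipLaw_law s hμl
  have ht0 : (0:ℝ) < t := by exact_mod_cast ht
  have ht1 : (1:ℝ) ≤ t := by exact_mod_cast ht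
  set L := Real.log (Fintype.card G) with hL
  have hL0 : 0 ≤ L := Real.log_natCast_nonneg _
  have hK : 1 ≤ t ^ 4 := Nat.one_le_pow _ _ ht
  have hK' : 1 ≤ t ^ 2 := Nat.one_le_pow _ _ ht
  set ξ := cpow X (t ^ 4) with hξ
  have hξl : IsLaw ξ := cpow_law hXl _
  have h1 := word_bound hw hξl t v (pt_law 0)
  rw [conv_pt_zero, conv_comm (pt 0), conv_pt_zero, hξ, cpow_mul, ← hξ] at h1
  have h2 := H_avg (fun i => conv (law w (v i)) (ngt ξ)) (fun i g => ((hw.law (v i)).conv hξl.ngt).nn g)
  have h3 : (fun g => (∑ i, conv (law w (v i)) (ngt ξ) g) / t) = conv μ (ngt ξ) := by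
    rw [← conv_avg]; rfl
  rw [h3] at h2
  have h4 : H (conv μ (ngt ξ)) = H (conv (ngt μ) ξ) := by
    rw [← H_ngt, ngt_conv, ngt_ngt]
  rw [h4] at h2
  have h5 := split_class s hμl hξl
  rw [← hX] at h5
  have h6 : H (conv X ξ) ≤ H ξ + L / (t ^ 4 : ℕ) := by
    have := incr_le hXl hK
    have e : cpow X (t ^ 4 + 1) = conv ξ X := rfl
    rw [e, conv_comm] at this
    linarith
  have h7 := conv_ngt_le hXl hK hK'
  rw [← hξ, ← hL] at h7
  rw [Finset.sum_sub_distrib, Finset.sum_const, Finset.card_univ, Fintype.card_fin, nsmul_eq_mul] at h1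
  have h8 : t ^ 4 * t = t ^ 5 := by ring
  rw [h8] at h1
  push_cast at h6 h7
  have h9 : (t:ℝ) * H (conv (ngt μ) ξ) ≤ t * (H ξ + L / t ^ 4 + t ^ 2 * L / t ^ 4 + L / t ^ 2 + 2 * Real.log 2) :=
    mul_le_mul_of_nonneg_left (by linarith) ht0.le
  have h10 : (t:ℝ) * (H ξ + L / t ^ 4 + t ^ 2 * L / t ^ 4 + L / t ^ 2 + 2 * Real.log 2) =
      t * H ξ + (L / t ^ 3 + 2 * (L / t)) + 2 * t * Real.log 2 := by
    field_simp; ring
  have h11 : L / (t:ℝ) ^ 3 ≤ L / t := by
    apply div_le_div_of_nonneg_left hL0 ht0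
    nlinarith [mul_le_mul ht1 ht1 zero_le_one ht0.le]
  have h12 : 3 / (t:ℝ) * L = L / t + 2 * (L / t) := by ring
  rw [h12]
  linarith

end group
end Pool.Agent.Lib.Helper88.Ach
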