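import Mathlib
import Pool.Agent.Lib.Helper88.Ach.Entropy
set_option autoImplicit false
set_option linter.unusedSectionVars false
open Finset
open scoped Pointwise
namespace Pool.Agent.Lib.Helper88.Ach

section group
variable {G : Type} [AddCommGroup G] [Fintype G] [DecidableEq G]

/-- Iterated sumsets. -/
def ksum (V : Finset G) : ℕ → Finset G
  | 0 => {0}
  | n + 1 => ksum V n + V

theorem mem_ksum (V : Finset G) (n : ℕ) (g : G) :
    g ∈ ksum V n ↔ ∃ w : Fin n → G, (∀ i, w i ∈ V) ∧ ∑ i, w i = g := by
  induction n generalizing g with
  | zero =>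
    simp only [ksum, Finset.mem_singleton, Finset.univ_eq_empty, Finset.sum_empty]
    constructor
    · rintro rfl; exact ⟨fun i => i.elim0, fun i => i.elim0, rfl⟩
    · rintro ⟨_, _, h⟩; exact h.symm
  | succ n ih =>
    simp only [ksum, Finset.mem_add]
    constructor
    · rintro ⟨a, ha, b, hb, rfl⟩
      obtain ⟨w, hw, rfl⟩ := (ih a).mp ha
      refine ⟨Fin.snoc w b, fun i => ?_, by rw [Fin.sum_snoc]⟩
      refine Fin.lastCases ?_ (fun j => ?_) i
      · simpa using hb
      · simpa using hw j
    · rintro ⟨w, hw, rfl⟩
      refine ⟨∑ i : Fin n, w i.castSucc, (ih _).mpr ⟨fun i => w i.castSucc, fun i => hw _, rfl⟩,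
        w (Fin.last n), hw _, by rw [Fin.sum_univ_castSucc]⟩

theorem ksum_add (V : Finset G) (m n : ℕ) : ksum V (m + n) = ksum V m + ksum V n := by
  induction n with
  | zero => rw [Nat.add_zero, ksum, Finset.singleton_zero, add_zero]
  | succ n ih => rw [← Nat.add_assoc, ksum, ih, ksum, add_assoc]

theorem ksum_mono {V : Finset G} (h0 : (0:G) ∈ V) {m n : ℕ} (h : m ≤ n) : ksum V m ⊆ ksum V n := by
  induction n, h using Nat.le_induction with
  | base => exact Finset.Subset.refl _
  | succ n _ ih =>
    refine ih.trans (fun g hg => ?_)
    rw [ksum]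
    exact Finset.mem_add.mpr ⟨g, hg, 0, h0, add_zero g⟩

theorem zero_mem_ksum {V : Finset G} (h0 : (0:G) ∈ V) (n : ℕ) : (0:G) ∈ ksum V n :=
  ksum_mono h0 (Nat.zero_le n) (by simp [ksum])

theorem H_ge_of_atoms {p : G → ℝ} (hp : IsLaw p) {c : ℝ} (h : ∀ g, p g ≤ c) : - Real.log c ≤ H p := by
  rw [H_eq, neg_le_neg_iff]
  calc ∑ g, p g * Real.log (p g) ≤ ∑ g, p g * Real.log c := by
        refine Finset.sum_le_sum (fun g _ => ?_)
        rcases (hp.nn g).eq_or_lt with h0 | h0
        · rw [← h0]; simp
        · exact mul_le_mul_of_nonneg_left (Real.log_le_log h0 (h g)) h0.le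
    _ = Real.log c := by rw [← Finset.sum_mul, hp.sum, one_mul]

/-- The usage law: an essentially universal law of letters of small atoms. -/
theorem usage {V : Finset G} (h0 : (0:G) ∈ V) {t M : ℕ} (ht : 1 ≤ t) (hM : 1 ≤ M) :
    ∃ μ : G → ℝ, IsLaw μ ∧ (∀ v, μ v ≠ 0 → v ∈ V) ∧ (∀ v, v ≠ 0 → μ v ≤ 1 / M) ∧
      ∀ s : G → Bool, Real.log (ksum V t).card ≤ H (cpow (flipLaw s μ) (t ^ 5)) +
        M * Real.log (t + 1) + 2 * t * Real.log 2 + 3 / t * Real.log (Fintype.card G) := by
  classical
  have hne : (ksum V t).Nonempty := ⟨0, zero_mem_ksum h0 t⟩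
  have hcard : (0:ℝ) < (ksum V t).card := by exact_mod_cast hne.card_pos
  have hM0 : (0:ℝ) < M := by exact_mod_cast hM
  have ht0 : (0:ℝ) < t := by exact_mod_cast ht
  choose word hword hsum using fun g : {g // g ∈ ksum V t} => (mem_ksum V t g.1).mp g.2
  set w : {g // g ∈ ksum V t} → ℝ := fun _ => 1 / (ksum V t).card with hw
  have hwl : IsLaw w := ⟨fun _ => by rw [hw]; positivity, by
    rw [hw]; simp only [Finset.sum_const, Finset.card_univ, nsmul_eq_mul]
    rw [Fintype.card_coe, mul_one_div, div_self hcard.ne']⟩
  set v : Fin t → {g // g ∈ ksum V t} → G := fun i ω => word ω i with hv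
  set μ0 := avg w v with hμ0
  have hμ0l : IsLaw μ0 := avg_law hwl ht v
  set hev : Finset G := univ.filter (fun u => 1 / (M:ℝ) < μ0 u) with hhev
  have hhevcard : hev.card ≤ M := by
    by_contra hcon
    push Not at hcon
    have h1 : (hev.card : ℝ) * (1 / M) ≤ ∑ u ∈ hev, μ0 u := by
      rw [← nsmul_eq_mul]
      exact Finset.card_nsmul_le_sum _ _ _ (fun u hu => (Finset.mem_filter.mp hu).2.le)
    have h2 : ∑ u ∈ hev, μ0 u ≤ 1 := by
      rw [← hμ0l.sum]
      exact Finset.sum_le_sum_of_subset_of_nonneg (Finset.subset_univ _) (fun u _ _ => hμ0l.nn u)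
    have h3 : (M:ℝ) < hev.card := by exact_mod_cast hcon
    have h4 : (1:ℝ) < hev.card * (1 / M) := by
      rw [mul_one_div, lt_div_iff₀ hM0]; linarith
    linarith
  set v' : Fin t → {g // g ∈ ksum V t} → G := fun i ω => if word ω i ∈ hev then 0 else word ω i with hv'
  refine ⟨avg w v', avg_law hwl ht v', ?_, ?_, ?_⟩
  · intro u hu
    by_contra hcon
    apply hu
    unfold avg
    rw [Finset.sum_eq_zero, zero_div]
    intro i _
    unfold law
    refine Finset.sum_eq_zero (fun ω _ => ?_)
    rw [if_neg]
    intro e
    apply hcon
    rw [← e, hv']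
    dsimp only
    split_ifs
    · exact h0
    · exact hword ω i
  · intro u hu
    by_cases hh : u ∈ hev
    · have : avg w v' u = 0 := by
        unfold avg
        rw [Finset.sum_eq_zero, zero_div]
        intro i _
        unfold law
        refine Finset.sum_eq_zero (fun ω _ => ?_)
        rw [if_neg]
        intro e
        rw [hv'] at e
        dsimp only at e
        split_ifs at e with h1
        · exact hu e.symm
        · exact h1 (e ▸ hh)
      rw [this]; positivity
    · have h1 : avg w v' u ≤ μ0 u := by
        rw [hμ0]
        unfold avg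
        refine div_le_div_of_nonneg_right (Finset.sum_le_sum (fun i _ => ?_)) ht0.le
        unfold law
        refine Finset.sum_le_sum (fun ω _ => ?_)
        by_cases e : v' i ω = u
        · have e2 : v i ω = u := by
            rw [hv'] at e
            dsimp only at e
            split_ifs at e with h1
            · exact absurd e.symm hu
            · exact e
          rw [if_pos e, if_pos e2]
        · rw [if_neg e]
          split_ifs
          · exact hwl.nn ω
          · exact le_rfl
      have h2 : μ0 u ≤ 1 / M := by
        by_contra hcon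
        push Not at hcon
        exact hh (Finset.mem_filter.mpr ⟨Finset.mem_univ _, hcon⟩)
      linarith
  · intro s
    have h1 := spread hwl ht v' s
    have h2 : ∀ g, law w (fun ω => ∑ i, v' i ω) g ≤ ((t:ℝ) + 1) ^ M / (ksum V t).card := by
      intro g
      have e1 : law w (fun ω => ∑ i, v' i ω) g =
          ((univ.filter (fun ω => ∑ i, v' i ω = g)).card : ℝ) / (ksum V t).card := by
        unfold law
        rw [← Finset.sum_filter, hw]
        simp only [Finset.sum_const, nsmul_eq_mul]
        rw [mul_one_div]
      rw [e1]
      refine div_le_div_of_nonneg_right ?_ hcard.le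
      have e2 : (univ.filter (fun ω => ∑ i, v' i ω = g)).card ≤
          (univ : Finset ({u // u ∈ hev} → Fin (t + 1))).card := by
        refine Finset.card_le_card_of_injOn
          (fun ω u => ⟨(univ.filter (fun i => word ω i = u.1)).card, ?_⟩) (fun _ _ => Finset.mem_univ _) ?_
        · have := Finset.card_le_univ (univ.filter (fun i : Fin t => word ω i = u.1))
          rw [Fintype.card_fin] at this
          omega
        · intro ω hω ω' hω' e
          have h3 : ∀ ω : {g // g ∈ ksum V t}, (ω.1 : G) = ∑ i, v' i ω +
              ∑ u : {u // u ∈ hev}, (univ.filter (fun i => word ω i = u.1)).card • u.1 := by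
            intro ω
            have e3 : ∑ u : {u // u ∈ hev}, (univ.filter (fun i => word ω i = u.1)).card • u.1 =
                ∑ i, (if word ω i ∈ hev then word ω i else 0) := by
              have e4 : ∀ u : {u // u ∈ hev}, (univ.filter (fun i => word ω i = u.1)).card • u.1 =
                  ∑ i, (if word ω i = u.1 then u.1 else 0) := by
                intro u
                rw [← Finset.sum_filter, Finset.sum_const]
              simp only [e4]
              rw [Finset.sum_comm]
              refine Finset.sum_congr rfl (fun i _ => ?_)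
              by_cases hi : word ω i ∈ hev
              · rw [if_pos hi, Finset.sum_eq_single (⟨word ω i, hi⟩ : {u // u ∈ hev})]
                · simp
                · intro b _ hb
                  rw [if_neg]
                  intro e; exact hb (Subtype.ext e.symm)
                · simp
              · rw [if_neg hi]
                refine Finset.sum_eq_zero (fun u _ => ?_)
                rw [if_neg]
                intro e; exact hi (e ▸ u.2)
            rw [e3, ← Finset.sum_add_distrib, ← hsum ω]
            refine Finset.sum_congr rfl (fun i _ => ?_)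
            rw [hv']
            dsimp only
            split_ifs <;> simp
          have h4 : ∀ u : {u // u ∈ hev}, (univ.filter (fun i => word ω i = u.1)).card =
              (univ.filter (fun i => word ω' i = u.1)).card := fun u => by
            have := congrFun e u
            simpa using this
          apply Subtype.ext
          rw [h3 ω, h3 ω', (Finset.mem_filter.mp hω).2, (Finset.mem_filter.mp hω').2]
          simp only [h4]
      have e3 : (univ : Finset ({u // u ∈ hev} → Fin (t + 1))).card = (t + 1) ^ hev.card := by
        rw [Finset.card_univ, Fintype.card_fun, Fintype.card_fin, Fintype.card_coe]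
      rw [e3] at e2
      calc ((univ.filter (fun ω => ∑ i, v' i ω = g)).card : ℝ) ≤ ((t + 1) ^ hev.card : ℕ) := by exact_mod_cast e2
        _ ≤ ((t + 1) ^ M : ℕ) := by exact_mod_cast Nat.pow_le_pow_right (by omega) hhevcard
        _ = ((t:ℝ) + 1) ^ M := by push_cast; ring
    have h3 := H_ge_of_atoms (hwl.law (fun ω => ∑ i, v' i ω)) h2
    rw [Real.log_div (by positivity) hcard.ne', Real.log_pow] at h3
    linarith

end group
end Pool.Agent.Lib.Helper88.Ach
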