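import Mathlib
import Pool.Agent.Lib.Helper88.Ach.Usage
set_option autoImplicit false
set_option linter.unusedSectionVars false
open Finset
open scoped Pointwise
namespace Pool.Agent.Lib.Helper88.Ach

section group
variable {G : Type} [AddCommGroup G] [Fintype G] [DecidableEq G]

/-- Product weight of a word. -/
def pw (μ : G → ℝ) {N : ℕ} (w : Fin N → G) : ℝ := ∏ j, μ (w j)

theorem pw_sum_succ (μ : G → ℝ) (N : ℕ) (φ : (Fin (N + 1) → G) → ℝ) :
    ∑ w, pw μ w * φ w = ∑ a, ∑ w : Fin N → G, μ a * pw μ w * φ (Fin.cons a w) := by
  rw [← Fintype.sum_prod_type' (f := fun a (w : Fin N → G) => μ a * pw μ w * φ (Fin.cons a w))]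
  refine (Fintype.sum_equiv (Fin.consEquiv (fun _ => G)) _ _ (fun x => ?_)).symm
  simp only [Fin.consEquiv, Equiv.coe_fn_mk, pw, Fin.prod_univ_succ, Fin.cons_zero, Fin.cons_succ]

theorem pw_law {μ : G → ℝ} (hμ : IsLaw μ) (N : ℕ) : IsLaw (pw μ (N := N)) := by
  refine ⟨fun w => Finset.prod_nonneg (fun j _ => hμ.nn _), ?_⟩
  induction N with
  | zero => simp [pw]
  | succ N ih =>
    have := pw_sum_succ μ N (fun _ => 1)
    simp only [mul_one] at this
    rw [this]
    have h : ∀ a, ∑ w : Fin N → G, μ a * pw μ w = μ a := fun a => by rw [← Finset.mul_sum, ih, mul_one]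
    simp only [h]
    exact hμ.sum

/-- Signed letter. -/
def sg (s : G → Bool) (v : G) : G := if s v then v else -v

theorem law_sg (s : G → Bool) (μ : G → ℝ) : law μ (sg s) = flipLaw s μ := by
  funext g
  unfold law flipLaw sg
  have h1 : ∀ v, (if (if s v then v else -v) = g then μ v else 0) =
      (if v = g then (if s v then μ v else 0) else 0) + (if v = -g then (if s v then 0 else μ v) else 0) := by
    intro v
    by_cases h : s v = true
    · simp [h]
    · simp only [h, if_false, Bool.false_eq_true]
      have : (-v = g) ↔ (v = -g) := neg_eq_iff_eq_neg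
      simp [this]
  simp only [h1]
  rw [Finset.sum_add_distrib, Finset.sum_ite_eq' univ g, Finset.sum_ite_eq' univ (-g)]
  simp

theorem law_pw (μ : G → ℝ) (X : G → G) (N : ℕ) :
    law (pw μ) (fun w : Fin N → G => ∑ j, X (w j)) = cpow (law μ X) N := by
  induction N with
  | zero =>
    funext g
    unfold law pw cpow pt
    simp only [Finset.univ_eq_empty, Finset.sum_empty, Finset.prod_empty]
    simp [eq_comm]
  | succ N ih =>
    rw [cpow, ← ih, conv_comm]
    funext g
    rw [conv, sum_law μ X (fun h => law (pw μ) (fun w : Fin N → G => ∑ j, X (w j)) (g - h))]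
    unfold law
    have h1 := pw_sum_succ μ N (fun w => if ∑ j, X (w j) = g then 1 else 0)
    simp only [mul_ite, mul_one, mul_zero] at h1
    rw [h1]
    refine Finset.sum_congr rfl (fun a _ => ?_)
    rw [Finset.mul_sum]
    refine Finset.sum_congr rfl (fun w _ => ?_)
    rw [Fin.sum_univ_succ]
    simp only [Fin.cons_zero, Fin.cons_succ]
    have : (X a + ∑ j, X (w j) = g) ↔ (∑ j, X (w j) = g - X a) := by
      rw [eq_sub_iff_add_eq, add_comm]
    simp only [this]
    split_ifs <;> simp

/-- No nonzero letter is drawn twice. -/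
def Good {N : ℕ} (w : Fin N → G) : Prop := ∀ j k, w j = w k → w j ≠ 0 → j = k

theorem coll_bound {μ : G → ℝ} (hμ : IsLaw μ) {b : ℝ} (hb : 0 ≤ b) (h : ∀ v, v ≠ 0 → μ v ≤ b) (N : ℕ) :
    open Classical in ∑ w : Fin N → G, pw μ w * (if Good w then 0 else 1) ≤ N ^ 2 * b := by
  classical
  induction N with
  | zero =>
    refine (Finset.sum_nonpos (fun w _ => ?_)).trans (by simp)
    rw [if_pos (show Good w from fun j => j.elim0)]; simp
  | succ N ih =>
    rw [pw_sum_succ]
    have h1 : ∀ (a : G) (w : Fin N → G), (if Good (Fin.cons a w : Fin (N + 1) → G) then (0:ℝ) else 1) ≤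
        (if Good w then 0 else 1) + ∑ j, (if w j = a then (if a = 0 then 0 else 1) else 0) := by
      intro a w
      have hn : 0 ≤ ∑ j, (if w j = a then (if a = 0 then (0:ℝ) else 1) else 0) :=
        Finset.sum_nonneg (fun j _ => by split_ifs <;> norm_num)
      have hle : (if Good (Fin.cons a w : Fin (N + 1) → G) then (0:ℝ) else 1) ≤ 1 := by
        split_ifs <;> norm_num
      by_cases hg : Good w
      · rw [if_pos hg, zero_add]
        by_cases hc : a ≠ 0 ∧ ∃ j, w j = a
        · obtain ⟨ha, j, hj⟩ := hc
          have h2 : (1:ℝ) ≤ ∑ j, (if w j = a then (if a = 0 then (0:ℝ) else 1) else 0) := by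
            refine le_trans ?_ (Finset.single_le_sum (f := fun j => (if w j = a then (if a = 0 then (0:ℝ) else 1) else 0))
              (fun j _ => by split_ifs <;> norm_num) (Finset.mem_univ j))
            rw [if_pos hj, if_neg ha]
          exact hle.trans h2
        · rw [if_pos]
          · exact hn
          · push Not at hc
            intro j k
            refine Fin.cases ?_ (fun j => ?_) j <;> refine Fin.cases ?_ (fun k => ?_) k
            · intros; rfl
            · intro e ha
              simp only [Fin.cons_zero, Fin.cons_succ] at e ha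
              exact absurd e.symm (hc ha k)
            · intro e ha
              simp only [Fin.cons_zero, Fin.cons_succ] at e ha
              exact absurd e (hc (e ▸ ha) j)
            · intro e ha
              simp only [Fin.cons_succ] at e ha
              rw [hg j k e ha]
      · rw [if_neg hg]
        exact hle.trans (by linarith)
    calc ∑ a, ∑ w : Fin N → G, μ a * pw μ w * (if Good (Fin.cons a w : Fin (N + 1) → G) then (0:ℝ) else 1)
        ≤ ∑ a, ∑ w : Fin N → G, μ a * pw μ w * ((if Good w then 0 else 1) + ∑ j, (if w j = a then (if a = 0 then 0 else 1) else 0)) :=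
          Finset.sum_le_sum (fun a _ => Finset.sum_le_sum (fun w _ =>
            mul_le_mul_of_nonneg_left (h1 a w) (mul_nonneg (hμ.nn a) ((pw_law hμ N).nn w))))
      _ = ∑ a, ∑ w : Fin N → G, μ a * (pw μ w * (if Good w then 0 else 1)) +
          ∑ a, ∑ w : Fin N → G, ∑ j, pw μ w * (if w j = a then (if a = 0 then 0 else μ a) else 0) := by
          rw [← Finset.sum_add_distrib]
          refine Finset.sum_congr rfl (fun a _ => ?_)
          rw [← Finset.sum_add_distrib]
          refine Finset.sum_congr rfl (fun w _ => ?_)
          rw [mul_add, mul_assoc, Finset.mul_sum]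
          congr 1
          refine Finset.sum_congr rfl (fun j _ => ?_)
          split_ifs <;> ring
      _ ≤ N ^ 2 * b + N * b := by
          refine add_le_add ?_ ?_
          · have : ∀ a, ∑ w : Fin N → G, μ a * (pw μ w * (if Good w then 0 else 1)) =
                μ a * ∑ w : Fin N → G, (pw μ w * (if Good w then 0 else 1)) := fun a => by rw [Finset.mul_sum]
            simp only [this]
            rw [← Finset.sum_mul, hμ.sum, one_mul]
            exact ih
          · rw [Finset.sum_comm]
            have h3 : ∀ w : Fin N → G, ∑ a, ∑ j, pw μ w * (if w j = a then (if a = 0 then 0 else μ a) else 0) ≤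
                pw μ w * (N * b) := by
              intro w
              rw [Finset.sum_comm]
              have : ∀ j, ∑ a, pw μ w * (if w j = a then (if a = 0 then 0 else μ a) else 0) ≤ pw μ w * b := by
                intro j
                rw [← Finset.mul_sum, Finset.sum_ite_eq univ (w j)]
                simp only [Finset.mem_univ, if_true]
                refine mul_le_mul_of_nonneg_left ?_ ((pw_law hμ N).nn w)
                split_ifs with h0
                · exact hb
                · exact h _ h0
              refine (Finset.sum_le_sum (fun j _ => this j)).trans (le_of_eq ?_)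
              rw [Finset.sum_const, Finset.card_univ, Fintype.card_fin, nsmul_eq_mul]; ring
            refine (Finset.sum_le_sum (fun w _ => h3 w)).trans (le_of_eq ?_)
            rw [← Finset.sum_mul, (pw_law hμ N).sum, one_mul]
      _ ≤ ((N + 1 : ℕ):ℝ) ^ 2 * b := by
          push_cast
          nlinarith [mul_nonneg (Nat.cast_nonneg (α := ℝ) N) hb]

theorem typ_bound {p : G → ℝ} (hp : IsLaw p) {S : Finset G} (hS : S.Nonempty) (hsupp : ∀ g, p g ≠ 0 → g ∈ S)
    {δ : ℝ} (hδ : 0 ≤ δ) (hH : Real.log S.card ≤ H p + δ) :
    ∑ g, (if Real.exp (4 * (δ + 1)) / S.card < p g then p g else 0) ≤ 1 / 4 := by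
  have hc : (0:ℝ) < S.card := by exact_mod_cast hS.card_pos
  have hlogc : 0 ≤ Real.log S.card := Real.log_natCast_nonneg _
  set y : G → ℝ := fun g => if g ∈ S then 1 / (S.card:ℝ) else 0 with hy
  have hysum : ∑ g, y g = 1 := by
    rw [hy, Finset.sum_ite_mem]
    simp only [Finset.univ_inter, Finset.sum_const, nsmul_eq_mul]
    rw [mul_one_div, div_self hc.ne']
  -- pointwise
  have key : ∀ g, (if Real.exp (4 * (δ + 1)) / S.card < p g then p g else 0) * (4 * (δ + 1)) ≤
      p g * Real.log (p g) + p g * Real.log S.card + y g := by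
    intro g
    by_cases hg : g ∈ S
    · have hyg : y g = 1 / (S.card:ℝ) := by rw [hy]; simp [hg]
      rw [hyg]
      have h1 := klog (hp.nn g) (y := 1 / (S.card:ℝ)) (by positivity) (fun e => absurd e (by positivity))
      rw [one_div, Real.log_inv, sub_neg_eq_add, ← one_div] at h1
      split_ifs with h
      · have hpg : 0 < p g := lt_of_le_of_lt (by positivity) h
        have h2 : 4 * (δ + 1) - Real.log S.card ≤ Real.log (p g) := by
          have := Real.log_le_log (by positivity) h.le
          rwa [Real.log_div (Real.exp_pos _).ne' hc.ne', Real.log_exp] at this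
        have h3 := mul_le_mul_of_nonneg_left h2 hpg.le
        have : 0 ≤ 1 / (S.card:ℝ) := by positivity
        nlinarith
      · have := hp.nn g
        nlinarith
    · have hyg : y g = 0 := by rw [hy]; simp [hg]
      have hpg : p g = 0 := by
        by_contra h
        exact hg (hsupp g h)
      rw [hyg, hpg]; simp
  have h1 := Finset.sum_le_sum (s := univ) (fun g _ => key g)
  rw [← Finset.sum_mul, Finset.sum_add_distrib, Finset.sum_add_distrib, ← Finset.sum_mul, hp.sum, hysum] at h1
  rw [H_eq] at hH
  have h2 : (0:ℝ) < 4 * (δ + 1) := by linarith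
  have h3 : (∑ g, (if Real.exp (4 * (δ + 1)) / S.card < p g then p g else 0)) * (4 * (δ + 1)) ≤ δ + 1 := by
    linarith
  refine le_of_mul_le_mul_right (h3.trans (le_of_eq ?_)) h2
  ring

end group
end Pool.Agent.Lib.Helper88.Ach
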