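import Mathlib
import Pool.Agent.Lib.Helper88.Ach.Draws
set_option autoImplicit false
set_option linter.unusedSectionVars false
open Finset
open scoped Pointwise
namespace Pool.Agent.Lib.Helper88.Ach

section group
variable {G : Type} [AddCommGroup G] [Fintype G] [DecidableEq G]

theorem sum_mem_ksum {V : Finset G} (_h0 : (0:G) ∈ V) {α : Type} (B : Finset α) (f : α → G)
    (hf : ∀ a ∈ B, f a ∈ V) : ∑ a ∈ B, f a ∈ ksum V B.card := by
  classical
  induction B using Finset.induction_on with
  | empty => simp [ksum]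
  | insert a B ha ih =>
    rw [Finset.sum_insert ha, Finset.card_insert_of_notMem ha, ksum, add_comm (f a)]
    exact Finset.add_mem_add (ih (fun b hb => hf b (Finset.mem_insert_of_mem hb)))
      (hf a (Finset.mem_insert_self _ _))

theorem sum_mem_ksum' {V : Finset G} (h0 : (0:G) ∈ V) {α : Type} (B : Finset α) (f : α → G)
    (hf : ∀ a ∈ B, f a ∈ V) {k : ℕ} (hk : B.card ≤ k) : ∑ a ∈ B, f a ∈ ksum V k :=
  ksum_mono h0 hk (sum_mem_ksum h0 B f hf)

/-- signed sums lie in the difference set -/
theorem signed_mem {V : Finset G} (h0 : (0:G) ∈ V) {α : Type} [DecidableEq α] (B : Finset α) (f : α → G)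
    (hf : ∀ a ∈ B, f a ∈ V) (s : α → Prop) [DecidablePred s] {k : ℕ} (hk : B.card ≤ k) :
    ∑ a ∈ B, (if s a then f a else - f a) ∈ ksum V k - ksum V k := by
  have h1 : ∑ a ∈ B, (if s a then f a else - f a) =
      ∑ a ∈ B.filter s, f a - ∑ a ∈ B.filter (fun a => ¬ s a), f a := by
    rw [Finset.sum_filter, Finset.sum_filter, ← Finset.sum_sub_distrib]
    refine Finset.sum_congr rfl (fun a _ => ?_)
    by_cases h : s a <;> simp [h]
  rw [h1]
  refine Finset.sub_mem_sub ?_ ?_
  · exact sum_mem_ksum' h0 _ f (fun a ha => hf a (Finset.mem_filter.mp ha).1)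
      ((Finset.card_filter_le _ _).trans hk)
  · exact sum_mem_ksum' h0 _ f (fun a ha => hf a (Finset.mem_filter.mp ha).1)
      ((Finset.card_filter_le _ _).trans hk)

/-- Typical sets of words. -/
theorem exists_draws {V : Finset G} (h0 : (0:G) ∈ V) {t : ℕ} (ht : 1 ≤ t) {δ : ℝ} (hδ : 0 ≤ δ)
    (hG : Real.log (ksum V (t ^ 5) - ksum V (t ^ 5)).card ≤ Real.log (ksum V t).card + δ) :
    ∃ μ : G → ℝ, IsLaw μ ∧ (∀ v, μ v ≠ 0 → v ∈ V) ∧ ∀ s : G → Bool, ∃ T : Finset (Fin (t ^ 5) → G),
      (1 / 2 ≤ ∑ w ∈ T, pw μ w) ∧ (∀ w ∈ T, Good w) ∧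
      ∀ w ∈ T, law (pw μ) (fun w : Fin (t ^ 5) → G => ∑ j, sg s (w j)) (∑ j, sg s (w j)) ≤
        Real.exp (4 * (δ + 4 * (t ^ 5) ^ 2 * Real.log (t + 1) + 2 * t * Real.log 2 +
          3 / t * Real.log (Fintype.card G) + 1)) / (ksum V (t ^ 5) - ksum V (t ^ 5)).card := by
  classical
  set N := t ^ 5 with hN
  have hN1 : 1 ≤ N := Nat.one_le_pow _ _ ht
  have hNr : (1:ℝ) ≤ N := by exact_mod_cast hN1
  obtain ⟨μ, hμ, hsupp, hatom, hH⟩ := usage h0 (t := t) (M := 4 * N ^ 2) ht
    (by have := Nat.one_le_pow 2 _ hN1; omega)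
  refine ⟨μ, hμ, hsupp, fun s => ?_⟩
  set G0 := ksum V N - ksum V N with hG0
  have hG0ne : G0.Nonempty := ⟨0 - 0, Finset.sub_mem_sub (zero_mem_ksum h0 N) (zero_mem_ksum h0 N)⟩
  set f : (Fin N → G) → G := fun w => ∑ j, sg s (w j) with hf
  set lam := law (pw μ) f with hlam
  have hlaml : IsLaw lam := (pw_law hμ N).law f
  have hlam2 : lam = cpow (flipLaw s μ) N := by rw [hlam, hf, law_pw, law_sg]
  have hsuppl : ∀ g, lam g ≠ 0 → g ∈ G0 := by
    intro g hg
    rw [hlam] at hg
    unfold law at hg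
    obtain ⟨w, _, hw⟩ := Finset.exists_ne_zero_of_sum_ne_zero hg
    split_ifs at hw with h1
    · rw [← h1, hf]
      have h2 : ∀ j, w j ∈ V := fun j => hsupp _ (fun e => hw (Finset.prod_eq_zero (Finset.mem_univ j) e))
      have h3 := signed_mem h0 (univ : Finset (Fin N)) w (fun j _ => h2 j) (fun j => s (w j) = true)
        (k := N) (by simp)
      exact h3
    · exact absurd rfl hw
  set δ' := δ + 4 * (t ^ 5) ^ 2 * Real.log (t + 1) + 2 * t * Real.log 2 +
          3 / t * Real.log (Fintype.card G) with hδ'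
  have ht0 : (0:ℝ) < t := by exact_mod_cast ht
  have hlt : 0 ≤ Real.log (t + 1) := Real.log_nonneg (by linarith)
  have hl2 : 0 ≤ Real.log 2 := Real.log_nonneg (by norm_num)
  have hlG : 0 ≤ Real.log (Fintype.card G) := Real.log_natCast_nonneg _
  have hδ'0 : 0 ≤ δ' := by rw [hδ']; positivity
  have hent : Real.log G0.card ≤ H lam + δ' := by
    have h1 := hH s
    rw [hlam2, hδ']
    have h2 : ((4 * N ^ 2 : ℕ):ℝ) = 4 * (t ^ 5) ^ 2 := by rw [hN]; push_cast; ring
    rw [h2] at h1
    linarith
  have htyp := typ_bound hlaml hG0ne hsuppl hδ'0 hent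
  have hcoll := coll_bound hμ (b := 1 / ((4 * N ^ 2 : ℕ):ℝ)) (by positivity) hatom N
  have hcoll2 : (N:ℝ) ^ 2 * (1 / ((4 * N ^ 2 : ℕ):ℝ)) = 1 / 4 := by
    push_cast; field_simp
  rw [hcoll2] at hcoll
  set c := Real.exp (4 * (δ' + 1)) / G0.card with hc
  refine ⟨univ.filter (fun w => Good w ∧ lam (f w) ≤ c), ?_, ?_, ?_⟩
  · have h1 : ∑ g, (if c < lam g then lam g else 0) = ∑ w, pw μ w * (if c < lam (f w) then 1 else 0) := by
      have := sum_law (pw μ) f (fun g => if c < lam g then 1 else 0)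
      rw [← this]
      exact Finset.sum_congr rfl (fun g _ => by split_ifs <;> simp [hlam])
    rw [h1] at htyp
    have h2 : ∀ w, pw μ w ≤ (if Good w ∧ lam (f w) ≤ c then pw μ w else 0) +
        pw μ w * (if Good w then 0 else 1) + pw μ w * (if c < lam (f w) then 1 else 0) := by
      intro w
      have hnn := (pw_law hμ N).nn w
      by_cases hg : Good w
      · by_cases hl : lam (f w) ≤ c
        · rw [if_pos ⟨hg, hl⟩, if_pos hg, if_neg (not_lt.mpr hl)]; simp
        · rw [if_neg (fun h => hl h.2), if_pos hg, if_pos (not_le.mp hl)]; simp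
      · rw [if_neg (fun h => hg h.1), if_neg hg]
        split_ifs <;> simp [hnn]
    have h3 := Finset.sum_le_sum (s := univ) (fun w _ => h2 w)
    rw [(pw_law hμ N).sum, Finset.sum_add_distrib, Finset.sum_add_distrib] at h3
    rw [Finset.sum_filter]
    linarith
  · intro w hw; exact (Finset.mem_filter.mp hw).2.1
  · intro w hw; exact (Finset.mem_filter.mp hw).2.2

/-- A relative Ruzsa covering lemma. -/
theorem cover_rel {P T' G0 : Finset G} (h0 : G0.Nonempty) {θ : ℝ}
    (h : ∀ a ∈ P, θ ≤ ((G0.image (fun g => a + g)) ∩ T').card) :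
    ∃ U : Finset G, U ⊆ P ∧ (U.card : ℝ) * θ ≤ T'.card ∧ P ⊆ U + (G0 - G0) := by
  classical
  set fam := P.powerset.filter (fun U => ∀ a ∈ U, ∀ b ∈ U, a ≠ b →
    Disjoint (G0.image (fun g => a + g)) (G0.image (fun g => b + g))) with hfam
  have hfne : fam.Nonempty := ⟨∅, by rw [hfam]; simp⟩
  obtain ⟨U, hU, hmax⟩ := Finset.exists_max_image fam Finset.card hfne
  obtain ⟨hUP, hdisj⟩ := Finset.mem_filter.mp hU
  rw [Finset.mem_powerset] at hUP
  refine ⟨U, hUP, ?_, ?_⟩
  · have h1 : ((U.biUnion (fun a => (G0.image (fun g => a + g)) ∩ T')).card : ℝ) =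
        ∑ a ∈ U, (((G0.image (fun g => a + g)) ∩ T').card : ℝ) := by
      rw [Finset.card_biUnion]
      · push_cast; rfl
      · intro a ha b hb hab
        exact (hdisj a ha b hb hab).mono Finset.inter_subset_left Finset.inter_subset_left
    have h2 : (U.card : ℝ) * θ ≤ ∑ a ∈ U, (((G0.image (fun g => a + g)) ∩ T').card : ℝ) := by
      rw [← nsmul_eq_mul]
      exact Finset.card_nsmul_le_sum _ _ _ (fun a ha => h a (hUP ha))
    have h3 : ((U.biUnion (fun a => (G0.image (fun g => a + g)) ∩ T')).card : ℝ) ≤ T'.card := by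
      exact_mod_cast Finset.card_le_card (Finset.biUnion_subset.mpr (fun a _ => Finset.inter_subset_right))
    linarith
  · intro a ha
    by_contra hcon
    have hnd : ∀ u ∈ U, Disjoint (G0.image (fun g => a + g)) (G0.image (fun g => u + g)) := by
      intro u hu
      rw [Finset.disjoint_left]
      intro z hz hz'
      obtain ⟨g, hg, rfl⟩ := Finset.mem_image.mp hz
      obtain ⟨g', hg', e⟩ := Finset.mem_image.mp hz'
      apply hcon
      refine Finset.mem_add.mpr ⟨u, hu, g' - g, Finset.sub_mem_sub hg' hg, ?_⟩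
      have : u + g' = a + g := e
      rw [show u + (g' - g) = u + g' - g by abel, this]; abel
    have haU : a ∉ U := by
      intro haU
      have := hnd a haU
      rw [disjoint_self] at this
      exact (h0.image _).ne_empty this
    have hins : insert a U ∈ fam := by
      rw [hfam, Finset.mem_filter, Finset.mem_powerset]
      refine ⟨Finset.insert_subset ha hUP, ?_⟩
      intro b hb c hc hbc
      rcases Finset.mem_insert.mp hb with rfl | hb'
      · rcases Finset.mem_insert.mp hc with rfl | hc'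
        · exact absurd rfl hbc
        · exact hnd c hc'
      · rcases Finset.mem_insert.mp hc with rfl | hc'
        · exact (hnd b hb').symm
        · exact hdisj b hb' c hc' hbc
    have := hmax _ hins
    rw [Finset.card_insert_of_notMem haU] at this
    omega

theorem card_ksum_le (V : Finset G) (k : ℕ) : (ksum V k).card ≤ V.card ^ k := by
  induction k with
  | zero => simp [ksum]
  | succ k ih =>
    rw [ksum, pow_succ]
    exact Finset.card_add_le.trans (Nat.mul_le_mul_right _ ih)

/-- growth of the difference sets -/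
theorem card_diff_le {V : Finset G} (h0 : (0:G) ∈ V) {t N : ℕ} (htN : t ≤ N) {ρ : ℝ}
    (h : Real.log (ksum V (6 * N)).card ≤ Real.log (ksum V t).card + ρ) :
    Real.log (ksum V N - ksum V N).card ≤ Real.log (ksum V t).card + 2 * ρ ∧
    Real.log (ksum V N - ksum V N - (ksum V N - ksum V N) + (ksum V N - ksum V N)).card ≤
      Real.log (ksum V t).card + 2 * ρ := by
  have hpos : ∀ k, 0 < (ksum V k).card := fun k => Finset.card_pos.mpr ⟨0, zero_mem_ksum h0 k⟩
  have key : ∀ k, t ≤ k → 2 * k ≤ 6 * N → Real.log (ksum V k - ksum V k).card ≤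
      Real.log (ksum V t).card + 2 * ρ := by
    intro k htk hk
    have h1 := Finset.ruzsa_triangle_inequality_sub_add_add (ksum V k) (ksum V k) (ksum V k)
    have h2 : ksum V k + ksum V k ⊆ ksum V (6 * N) := by
      rw [← ksum_add]; exact ksum_mono h0 (by omega)
    have h3 := Finset.card_le_card h2
    have hd : 0 < (ksum V k - ksum V k).card :=
      Finset.card_pos.mpr ⟨0 - 0, Finset.sub_mem_sub (zero_mem_ksum h0 k) (zero_mem_ksum h0 k)⟩
    have h4 : ((ksum V k - ksum V k).card : ℝ) * (ksum V k).card ≤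
        (ksum V (6 * N)).card * (ksum V (6 * N)).card := by
      exact_mod_cast h1.trans (Nat.mul_le_mul h3 h3)
    have hd' : (0:ℝ) < (ksum V k - ksum V k).card := by exact_mod_cast hd
    have hk' : (0:ℝ) < (ksum V k).card := by exact_mod_cast hpos k
    have h6' : (0:ℝ) < (ksum V (6 * N)).card := by exact_mod_cast hpos _
    have h5 := Real.log_le_log (by positivity) h4
    rw [Real.log_mul hd'.ne' hk'.ne', Real.log_mul h6'.ne' h6'.ne'] at h5
    have h6 : Real.log (ksum V t).card ≤ Real.log (ksum V k).card := by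
      apply Real.log_le_log (by exact_mod_cast hpos t)
      exact_mod_cast Finset.card_le_card (ksum_mono h0 htk)
    linarith
  refine ⟨key N htN (by omega), ?_⟩
  have h3 : ksum V N - ksum V N - (ksum V N - ksum V N) + (ksum V N - ksum V N) =
      ksum V (3 * N) - ksum V (3 * N) := by
    have : ksum V (3 * N) = ksum V N + ksum V N + ksum V N := by
      rw [show 3 * N = N + N + N by ring, ksum_add, ksum_add]
    rw [this]
    simp only [sub_eq_add_neg, neg_add, neg_neg]
    ac_rfl
  rw [h3]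
  exact key (3 * N) (by omega) (by omega)

end group
end Pool.Agent.Lib.Helper88.Ach
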