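import Mathlib
import Pool.Agent.Lib.Helper88.Ach.Defs
import Pool.Agent.Lib.Helper88.Ach.Cover
set_option autoImplicit false
set_option linter.unusedSectionVars false
open Finset
open scoped Pointwise symmDiff
namespace Pool.Agent.Lib.Helper88.Ach

section core
variable {ι : Type} [Fintype ι] [DecidableEq ι]

/-- Discretized terms. -/
noncomputable def dA (x : ι → ℝ) (r : ℝ) (n : ι) : ℤ := ⌊x n / r⌋

/-- Discretized subset sums. -/
noncomputable def dY (x : ι → ℝ) (r : ℝ) (S : Finset ι) : ℤ := ⌊X x S / r⌋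

theorem X_symmDiff (x : ι → ℝ) (S F : Finset ι) :
    X x (S ∆ F) = X x S + ∑ n ∈ F, (if n ∈ S then - x n else x n) := by
  unfold X
  have e1 : ∑ n ∈ S ∆ F, x n = ∑ n, (if n ∈ S ∆ F then x n else 0) := by
    rw [Finset.sum_ite_mem, Finset.univ_inter]
  have e2 : ∑ n ∈ S, x n = ∑ n, (if n ∈ S then x n else 0) := by
    rw [Finset.sum_ite_mem, Finset.univ_inter]
  have e3 : ∑ n ∈ F, (if n ∈ S then - x n else x n) = ∑ n, (if n ∈ F then (if n ∈ S then - x n else x n) else 0) := by
    rw [Finset.sum_ite_mem, Finset.univ_inter]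
  rw [e1, e2, e3, ← Finset.sum_add_distrib]
  refine Finset.sum_congr rfl (fun n _ => ?_)
  by_cases h1 : n ∈ S <;> by_cases h2 : n ∈ F <;> simp [Finset.mem_symmDiff, h1, h2]

theorem dY_err (x : ι → ℝ) (r : ℝ) (S F : Finset ι) :
    |dY x r (S ∆ F) - dY x r S - ∑ n ∈ F, (if n ∈ S then - dA x r n else dA x r n)| ≤ F.card + 1 := by
  set B : ℤ := ∑ n ∈ F, (if n ∈ S then - dA x r n else dA x r n) with hB
  set v : ℝ := (∑ n ∈ F, (if n ∈ S then - x n else x n)) / r with hv
  have h1 : |v - B| ≤ F.card := by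
    rw [hv, hB, Finset.sum_div]
    push_cast
    rw [← Finset.sum_sub_distrib]
    refine (Finset.abs_sum_le_sum_abs _ _).trans ?_
    rw [← nsmul_one, ← Finset.sum_const]
    refine Finset.sum_le_sum (fun n _ => ?_)
    have h2 := Int.floor_le (x n / r)
    have h3 := Int.lt_floor_add_one (x n / r)
    unfold dA
    split_ifs
    · rw [abs_le]; constructor <;> rw [neg_div] <;> linarith
    · rw [abs_le]; constructor <;> linarith
  have h2 : dY x r (S ∆ F) = ⌊X x S / r + v⌋ := by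
    unfold dY; rw [X_symmDiff, add_div]
  rw [h2]
  unfold dY
  have h3 := Int.floor_le (X x S / r + v)
  have h4 := Int.lt_floor_add_one (X x S / r + v)
  have h5 := Int.floor_le (X x S / r)
  have h6 := Int.lt_floor_add_one (X x S / r)
  rw [abs_le] at h1
  have h7 : (-((F.card : ℝ) + 1)) ≤ ((⌊X x S / r + v⌋ - ⌊X x S / r⌋ - B : ℤ) : ℝ) := by
    push_cast; linarith
  have h8 : ((⌊X x S / r + v⌋ - ⌊X x S / r⌋ - B : ℤ) : ℝ) ≤ (F.card : ℝ) + 1 := by
    push_cast; linarith
  rw [abs_le]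
  constructor
  · exact_mod_cast h7
  · exact_mod_cast h8

/-- The discrete interval `[-c, c]` modulo `m`. -/
noncomputable def Iv (m c : ℕ) : Finset (ZMod m) := (Finset.Icc (-(c:ℤ)) c).image (fun z : ℤ => (z : ZMod m))

theorem card_Iv (m c : ℕ) : (Iv m c).card ≤ 2 * c + 1 := by
  refine Finset.card_image_le.trans ?_
  rw [Int.card_Icc]; omega

theorem mem_Iv {m c : ℕ} {z : ℤ} (h : |z| ≤ c) : (z : ZMod m) ∈ Iv m c :=
  Finset.mem_image.mpr ⟨z, Finset.mem_Icc.mpr (abs_le.mp h), rfl⟩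

theorem neg_mem_Iv {m c : ℕ} {z : ℤ} (h : |z| ≤ c) : (-(z : ZMod m)) ∈ Iv m c := by
  have : (-(z : ZMod m)) = ((-z : ℤ) : ZMod m) := by push_cast; rfl
  rw [this]
  exact mem_Iv (by rwa [abs_neg])

/-- Residues of the discretized subset sums. -/
noncomputable def rY (x : ι → ℝ) (r : ℝ) (m : ℕ) (S : Finset ι) : ZMod m := (dY x r S : ZMod m)

theorem cells_eq (x : ι → ℝ) (hx : ∀ n, 0 < x n) {C0 r : ℝ} (hC : ∑ n, x n ≤ C0) (hr : 0 < r)
    {m : ℕ} [NeZero m] (hm : C0 / r < m) (𝒮 : Finset (Finset ι)) :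
    cells x r 𝒮 = (𝒮.image (rY x r m)).card := by
  have h1 : 𝒮.image (rY x r m) = (𝒮.image (fun S => ⌊X x S / r⌋)).image (fun z : ℤ => (z : ZMod m)) := by
    rw [Finset.image_image]; rfl
  rw [h1, cells]
  refine (Finset.card_image_of_injOn ?_).symm
  intro a ha b hb e
  have hrange : ∀ a ∈ (𝒮.image (fun S => ⌊X x S / r⌋)), 0 ≤ a ∧ a < m := by
    intro a ha
    obtain ⟨S, _, rfl⟩ := Finset.mem_image.mp ha
    have h2 : 0 ≤ X x S := Finset.sum_nonneg (fun n _ => (hx n).le)
    have h3 : X x S ≤ C0 := (Finset.sum_le_sum_of_subset_of_nonneg (Finset.subset_univ _)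
      (fun n _ _ => (hx n).le)).trans hC
    refine ⟨Int.floor_nonneg.mpr (by positivity), ?_⟩
    rw [Int.floor_lt]
    have : X x S / r ≤ C0 / r := div_le_div_of_nonneg_right h3 hr.le
    push_cast
    linarith
  have ha' := hrange a (by simpa using ha)
  have hb' := hrange b (by simpa using hb)
  have e' : (a : ZMod m) = (b : ZMod m) := e
  rw [ZMod.intCast_eq_intCast_iff] at e'
  have := e'.eq
  rwa [Int.emod_eq_of_lt ha'.1 ha'.2, Int.emod_eq_of_lt hb'.1 hb'.2] at this

/-- The sign pattern seen by the letters. -/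
noncomputable def sgn {m : ℕ} {E : Finset (ZMod m)} (rep : {v // v ∈ E} → ι) (S : Finset ι) (v : ZMod m) : Bool :=
  if h : v ∈ E then decide (rep ⟨v, h⟩ ∉ S) else true

/-- The flips of a word. -/
noncomputable def flips {m : ℕ} {E : Finset (ZMod m)} (rep : {v // v ∈ E} → ι) {N : ℕ} (w : Fin N → ZMod m) :
    Finset ι :=
  (univ.filter (fun v : {v // v ∈ E} => ∃ j, w j = v.1)).image rep

theorem card_flips_le {m : ℕ} [NeZero m] {E : Finset (ZMod m)} (rep : {v // v ∈ E} → ι) {N : ℕ}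
    (w : Fin N → ZMod m) : (flips rep w).card ≤ N := by
  unfold flips
  refine Finset.card_image_le.trans ?_
  calc (univ.filter (fun v : {v // v ∈ E} => ∃ j, w j = v.1)).card ≤
        (univ.image w).card := by
        refine Finset.card_le_card_of_injOn (fun v => v.1) ?_ (fun a _ b _ e => Subtype.ext e)
        intro v hv
        obtain ⟨j, hj⟩ := (Finset.mem_filter.mp (Finset.mem_coe.mp hv)).2
        simp only [Finset.coe_image, Finset.coe_univ, Set.image_univ, Set.mem_range]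
        exact ⟨j, hj⟩
    _ ≤ N := Finset.card_image_le.trans (by simp)

/-- The effect of the flips of a good word. -/
theorem flips_sum {m : ℕ} [NeZero m] {E : Finset (ZMod m)} (hE : (0 : ZMod m) ∉ E) (rep : {v // v ∈ E} → ι)
    (a : ι → ZMod m) (hrep : ∀ v, a (rep v) = v.1) {N : ℕ} (w : Fin N → ZMod m) (hw : Good w)
    (hwE : ∀ j, w j ≠ 0 → w j ∈ E) (S : Finset ι) :
    ∑ n ∈ flips rep w, (if n ∈ S then - a n else a n) = ∑ j, sg (sgn rep S) (w j) := by
  have hinj : Function.Injective rep := fun u v e => Subtype.ext (by rw [← hrep u, ← hrep v, e])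
  unfold flips
  rw [Finset.sum_image (fun u _ v _ e => hinj e)]
  have h1 : ∀ v : {v // v ∈ E}, (if rep v ∈ S then - a (rep v) else a (rep v)) = sg (sgn rep S) v.1 := by
    intro v
    unfold sg sgn
    rw [dif_pos v.2, hrep]
    by_cases h : rep v ∈ S
    · rw [if_pos h, if_neg]; simpa using h
    · rw [if_neg h, if_pos]; simpa using h
  simp only [h1]
  have h2 : ∑ j, sg (sgn rep S) (w j) = ∑ j ∈ univ.filter (fun j => w j ≠ 0), sg (sgn rep S) (w j) := by
    rw [Finset.sum_filter]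
    refine Finset.sum_congr rfl (fun j _ => ?_)
    split_ifs with h
    · rfl
    · push Not at h; rw [h]; unfold sg; split_ifs <;> simp
  rw [h2]
  refine (Finset.sum_bij (fun j hj => (⟨w j, hwE j (Finset.mem_filter.mp hj).2⟩ : {v // v ∈ E})) ?_ ?_ ?_ ?_).symm
  · intro j hj
    exact Finset.mem_filter.mpr ⟨Finset.mem_univ _, j, rfl⟩
  · intro j hj k hk e
    exact hw j k (congrArg Subtype.val e) (Finset.mem_filter.mp hj).2
  · intro v hv
    obtain ⟨j, hj⟩ := (Finset.mem_filter.mp hv).2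
    refine ⟨j, Finset.mem_filter.mpr ⟨Finset.mem_univ _, ?_⟩, Subtype.ext hj⟩
    intro e
    rw [hj] at e
    exact hE (e ▸ v.2)
  · intro j hj
    rfl

/-- The kernel built from words and typical sets. -/
noncomputable def mkKern {x : ι → ℝ} {m : ℕ} [NeZero m] {E : Finset (ZMod m)} (rep : {v // v ∈ E} → ι)
    {N : ℕ} {μ : ZMod m → ℝ} (hμ : IsLaw μ) (T : Finset ι → Finset (Fin N → ZMod m))
    (hT : ∀ S, 1 / 2 ≤ ∑ w ∈ T S, pw μ w) {M : ℕ} (hM : N ≤ M) {d τ0 : ℝ}
    (hτ : ∀ v, x (rep v) ≤ τ0) (hτ0 : 0 ≤ τ0) (hd : N * τ0 ≤ d) : Kern x M d where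
  μ F := ∑ w : Fin N → ZMod m, if flips rep w = F then pw μ w else 0
  μ_nonneg F := Finset.sum_nonneg (fun w _ => by split_ifs; exacts [(pw_law hμ N).nn w, le_rfl])
  μ_sum := by
    rw [Finset.sum_comm]
    simp only [Finset.sum_ite_eq, Finset.mem_univ, if_true]
    exact (pw_law hμ N).sum
  μ_card F hF := by
    obtain ⟨w, _, hw⟩ := Finset.exists_ne_zero_of_sum_ne_zero hF
    split_ifs at hw with h
    · rw [← h]; exact (card_flips_le rep w).trans hM
    · exact absurd rfl hw
  μ_disp F hF := by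
    obtain ⟨w, _, hw⟩ := Finset.exists_ne_zero_of_sum_ne_zero hF
    split_ifs at hw with h
    · rw [← h]
      refine le_trans ?_ hd
      unfold X
      have h1 : ∑ n ∈ flips rep w, x n ≤ (flips rep w).card * τ0 := by
        rw [← nsmul_eq_mul]
        refine Finset.sum_le_card_nsmul _ _ _ (fun n hn => ?_)
        obtain ⟨v, _, rfl⟩ := Finset.mem_image.mp hn
        exact hτ v
      refine h1.trans (mul_le_mul_of_nonneg_right ?_ hτ0)
      exact_mod_cast card_flips_le rep w
    · exact absurd rfl hw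
  K S S' := (∑ w ∈ T S, if S ∆ flips rep w = S' then pw μ w else 0) / ∑ w ∈ T S, pw μ w
  K_nonneg S S' := div_nonneg (Finset.sum_nonneg (fun w _ => by split_ifs; exacts [(pw_law hμ N).nn w, le_rfl]))
    (by linarith [hT S])
  K_sum S := by
    rw [← Finset.sum_div, Finset.sum_comm]
    simp only [Finset.sum_ite_eq, Finset.mem_univ, if_true]
    exact div_self (by linarith [hT S])
  K_dom S S' := by
    have hZ : 0 < ∑ w ∈ T S, pw μ w := by linarith [hT S]
    rw [div_le_iff₀ hZ]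
    have h1 : ∑ w ∈ T S, (if S ∆ flips rep w = S' then pw μ w else 0) ≤
        ∑ w : Fin N → ZMod m, if flips rep w = S ∆ S' then pw μ w else 0 := by
      refine (Finset.sum_le_sum_of_subset_of_nonneg (Finset.subset_univ _)
        (fun w _ _ => by split_ifs; exacts [(pw_law hμ N).nn w, le_rfl])).trans ?_
      refine Finset.sum_le_sum (fun w _ => ?_)
      by_cases h : S ∆ flips rep w = S'
      · rw [if_pos h, if_pos]
        rw [← h, symmDiff_symmDiff_cancel_left]
      · rw [if_neg h]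
        split_ifs
        · exact (pw_law hμ N).nn w
        · exact le_rfl
    have h2 : 0 ≤ ∑ w : Fin N → ZMod m, if flips rep w = S ∆ S' then pw μ w else 0 :=
      Finset.sum_nonneg (fun w _ => by split_ifs; exacts [(pw_law hμ N).nn w, le_rfl])
    nlinarith [hT S]

/-- A kernel hitting `𝒮'` with probability at least `β` produces many values of the signed sums. -/
theorem many_values {m : ℕ} [NeZero m] {N : ℕ} {μ : ZMod m → ℝ} (hμ : IsLaw μ)
    (T : Finset (Fin N → ZMod m)) (f : (Fin N → ZMod m) → ZMod m) {c β : ℝ} (hc : 0 < c)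
    (hT : ∀ w ∈ T, law (pw μ) f (f w) ≤ c) (P : (Fin N → ZMod m) → Prop) [DecidablePred P]
    (hβ : β ≤ ∑ w ∈ T.filter P, pw μ w) :
    β / c ≤ (((T.filter (fun w => P w ∧ pw μ w ≠ 0)).image f).card : ℝ) := by
  rw [div_le_iff₀ hc]
  refine hβ.trans ?_
  set W := T.filter (fun w => P w ∧ pw μ w ≠ 0) with hW
  have h1 : ∑ w ∈ T.filter P, pw μ w = ∑ w ∈ W, pw μ w := by
    symm
    refine Finset.sum_subset (fun w hw => ?_) (fun w hw hw' => ?_)
    · rw [hW, Finset.mem_filter] at hw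
      exact Finset.mem_filter.mpr ⟨hw.1, hw.2.1⟩
    · by_contra hne
      rw [Finset.mem_filter] at hw
      exact hw' (Finset.mem_filter.mpr ⟨hw.1, hw.2, hne⟩)
  rw [h1, ← Finset.sum_fiberwise_of_maps_to (s := W) (t := W.image f) (g := f)
    (fun w hw => Finset.mem_image_of_mem f hw)]
  rw [← nsmul_eq_mul]
  refine Finset.sum_le_card_nsmul _ _ _ (fun g hg => ?_)
  obtain ⟨w, hw, rfl⟩ := Finset.mem_image.mp hg
  refine le_trans ?_ (hT w (Finset.mem_filter.mp hw).1)
  unfold law
  rw [← Finset.sum_filter]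
  refine Finset.sum_le_sum_of_subset_of_nonneg (fun w' hw' => ?_) (fun w' _ _ => (pw_law hμ N).nn w')
  exact Finset.mem_filter.mpr ⟨Finset.mem_univ _, (Finset.mem_filter.mp hw').2⟩

end core
end Pool.Agent.Lib.Helper88.Ach
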