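import Mathlib
import Pool.Agent.Lib.Helper88.Ach.Kernel
set_option autoImplicit false
set_option linter.unusedSectionVars false
open Finset
open scoped Pointwise symmDiff
namespace Pool.Agent.Lib.Helper88.Ach

variable {ι : Type} [Fintype ι] [DecidableEq ι]

/-- The rich values. -/
noncomputable def rich (x : ι → ℝ) (r τ0 : ℝ) (m : ℕ) : Finset (ZMod m) :=
  insert 0 ((univ.filter (fun n => x n ≤ τ0)).image (fun n => (dA x r n : ZMod m)))

theorem card_cheap {x : ι → ℝ} (hx : ∀ n, 0 < x n) {C0 τ0 : ℝ} (hC : ∑ n, x n ≤ C0) (hτ : 0 < τ0) :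
    ((univ.filter (fun n => ¬ x n ≤ τ0)).card : ℝ) ≤ C0 / τ0 := by
  rw [le_div_iff₀ hτ]
  refine le_trans ?_ hC
  refine le_trans ?_ (Finset.sum_le_sum_of_subset_of_nonneg (Finset.filter_subset (fun n => ¬ x n ≤ τ0) univ)
    (fun n _ _ => (hx n).le))
  rw [← nsmul_eq_mul]
  exact Finset.card_nsmul_le_sum _ _ _ (fun n hn => (not_le.mp (Finset.mem_filter.mp hn).2).le)

theorem kern_core {x : ι → ℝ} (hx : ∀ n, 0 < x n) {C0 r τ0 : ℝ} (hC : ∑ n, x n ≤ C0) (hr : 0 < r)
    (hτ : 0 < τ0) {m : ℕ} [NeZero m] (hm : C0 / r < m) {i t M : ℕ} {d : ℝ} (ht : 1 ≤ t) (hit : i ≤ t)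
    (hM : t ^ 5 ≤ M) (hd : (t ^ 5 : ℕ) * τ0 ≤ d) {ρ : ℝ} (hρ : 0 ≤ ρ)
    (hgrow : Real.log (ksum (rich x r τ0 m) (6 * t ^ 5)).card ≤ Real.log (ksum (rich x r τ0 m) t).card + ρ) :
    ∃ κ : Kern x M d, Absorbs κ i r (2 * Real.exp (4 * (2 * ρ + 4 * (t ^ 5) ^ 2 * Real.log (t + 1) +
      2 * t * Real.log 2 + 3 / t * Real.log m + 1)) * Real.exp (2 * ρ) * (2 * t ^ 5 + 3) * (2 * i + 3) *
        (2 * (C0 / τ0) + 1) ^ i) := by
  classical
  set V := rich x r τ0 m with hV
  have h0V : (0 : ZMod m) ∈ V := Finset.mem_insert_self _ _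
  set N := t ^ 5 with hN
  have htN : t ≤ N := by rw [hN]; exact Nat.le_self_pow (by norm_num) t
  obtain ⟨hg1, hg2⟩ := card_diff_le h0V htN hgrow
  set G0 := ksum V N - ksum V N with hG0
  obtain ⟨μ, hμ, hsupp, hT0⟩ := exists_draws h0V ht (δ := 2 * ρ) (by positivity) hg1
  -- representatives
  set E := V.erase 0 with hE
  have hE0 : (0 : ZMod m) ∉ E := Finset.notMem_erase _ _
  have hrep0 : ∀ v : {v // v ∈ E}, ∃ n, x n ≤ τ0 ∧ (dA x r n : ZMod m) = v.1 := by
    intro v
    have h1 := Finset.mem_of_mem_erase v.2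
    have h2 : v.1 ≠ 0 := Finset.ne_of_mem_erase v.2
    rw [hV, rich, Finset.mem_insert] at h1
    rcases h1 with h1 | h1
    · exact absurd h1 h2
    · obtain ⟨n, hn, e⟩ := Finset.mem_image.mp h1
      exact ⟨n, (Finset.mem_filter.mp hn).2, e⟩
  choose rep hrepτ hrepa using hrep0
  choose T0 hT1 hT2 hT3 using hT0
  set T : Finset ι → Finset (Fin N → ZMod m) := fun S => T0 (sgn rep S) with hT
  have hT1' : ∀ S, 1 / 2 ≤ ∑ w ∈ T S, pw μ w := fun S => hT1 (sgn rep S)
  set κ : Kern x M d := mkKern rep hμ T hT1' hM hrepτ hτ.le hd with hκ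
  refine ⟨κ, ?_⟩
  intro 𝒮 𝒮' β hβ hhit
  set e4 := Real.exp (4 * (2 * ρ + 4 * ((t:ℝ) ^ 5) ^ 2 * Real.log (t + 1) +
      2 * t * Real.log 2 + 3 / t * Real.log m + 1)) with he4
  have he4pos : 0 < e4 := Real.exp_pos _
  have hG0ne : G0.Nonempty := ⟨0 - 0, Finset.sub_mem_sub (zero_mem_ksum h0V N) (zero_mem_ksum h0V N)⟩
  have hG0c : (0:ℝ) < G0.card := by exact_mod_cast hG0ne.card_pos
  set c := e4 / G0.card with hc
  have hcpos : 0 < c := div_pos he4pos hG0c
  set Y := rY x r m with hY
  set T' : Finset (ZMod m) := 𝒮'.image Y + Iv m (N + 1) with hT'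
  set θ : ℝ := β / 2 / c with hθ
  have hθpos : 0 < θ := by rw [hθ]; positivity
  -- (a) many values
  have ha : ∀ a ∈ 𝒮.image Y, θ ≤ ((G0.image (fun g => a + g)) ∩ T').card := by
    intro a ha
    obtain ⟨S, hS, rfl⟩ := Finset.mem_image.mp ha
    set f : (Fin N → ZMod m) → ZMod m := fun w => ∑ j, sg (sgn rep S) (w j) with hf
    have h1 : β / 2 ≤ ∑ w ∈ (T S).filter (fun w => S ∆ flips rep w ∈ 𝒮'), pw μ w := by
      have h2 := hhit S hS
      have h3 : ∑ S' ∈ 𝒮', κ.K S S' =
          (∑ w ∈ (T S).filter (fun w => S ∆ flips rep w ∈ 𝒮'), pw μ w) / ∑ w ∈ T S, pw μ w := by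
        show ∑ S' ∈ 𝒮', (∑ w ∈ T S, if S ∆ flips rep w = S' then pw μ w else 0) / ∑ w ∈ T S, pw μ w = _
        rw [← Finset.sum_div, Finset.sum_comm]
        congr 1
        rw [Finset.sum_filter]
        refine Finset.sum_congr rfl (fun w _ => ?_)
        rw [Finset.sum_ite_eq]
      rw [h3] at h2
      have hZ := hT1' S
      have hZpos : 0 < ∑ w ∈ T S, pw μ w := by linarith
      rw [le_div_iff₀ hZpos] at h2
      nlinarith
    have h2 := many_values hμ (T S) f hcpos (by
      intro w hw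
      have := hT3 (sgn rep S) w hw
      rw [ZMod.card] at this
      exact this) (fun w => S ∆ flips rep w ∈ 𝒮') h1
    refine h2.trans ?_
    have h3 : (((T S).filter (fun w => S ∆ flips rep w ∈ 𝒮' ∧ pw μ w ≠ 0)).image f).card ≤
        ((G0.image (fun g => Y S + g)) ∩ T').card := by
      refine Finset.card_le_card_of_injOn (fun g => Y S + g) ?_ (fun a _ b _ e => add_left_cancel e)
      intro g hg
      obtain ⟨w, hw, rfl⟩ := Finset.mem_image.mp (Finset.mem_coe.mp hg)
      obtain ⟨hwT, hw1, hw2⟩ := Finset.mem_filter.mp hw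
      have hwV : ∀ j, w j ∈ V := fun j => hsupp _ (fun e => hw2 (Finset.prod_eq_zero (Finset.mem_univ j) e))
      have hgood : Good w := hT2 _ w hwT
      rw [Finset.mem_coe, Finset.mem_inter]
      constructor
      · refine Finset.mem_image_of_mem _ ?_
        have := signed_mem h0V (univ : Finset (Fin N)) w (fun j _ => hwV j) (fun j => sgn rep S (w j) = true)
          (k := N) (by simp)
        exact this
      · have h4 := flips_sum hE0 rep (fun n => (dA x r n : ZMod m)) hrepa w hgood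
          (fun j hj => Finset.mem_erase.mpr ⟨hj, hwV j⟩) S
        have h5 := dY_err x r S (flips rep w)
        set z : ℤ := dY x r (S ∆ flips rep w) - dY x r S -
          ∑ n ∈ flips rep w, (if n ∈ S then - dA x r n else dA x r n) with hz
        have h6 : Y S + f w = Y (S ∆ flips rep w) + -(z : ZMod m) := by
          rw [hz, hf]
          dsimp only
          rw [← h4, hY, rY, rY]
          push_cast
          have : ∑ n ∈ flips rep w, (if n ∈ S then - (dA x r n : ZMod m) else (dA x r n : ZMod m)) =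
            ∑ n ∈ flips rep w, ((if n ∈ S then - dA x r n else dA x r n : ℤ) : ZMod m) := by
            refine Finset.sum_congr rfl (fun n _ => ?_)
            split_ifs <;> simp
          rw [this]
          push_cast
          ring
        have h7 : |z| ≤ ((N + 1 : ℕ) : ℤ) := by
          refine h5.trans ?_
          have := card_flips_le rep w
          push_cast
          have h8 : ((flips rep w).card : ℤ) ≤ N := by exact_mod_cast this
          linarith
        show Y S + f w ∈ T'
        rw [h6, hT']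
        exact Finset.add_mem_add (Finset.mem_image_of_mem _ hw1) (neg_mem_Iv h7)
    exact_mod_cast h3
  obtain ⟨U, _, hU1, hU2⟩ := cover_rel hG0ne ha
  -- (b) neighbourhoods
  set cheap := univ.filter (fun n => ¬ x n ≤ τ0) with hcheap
  set W : Finset (ZMod m) := insert 0 (cheap.image (fun n => (dA x r n : ZMod m)) ∪
    cheap.image (fun n => - (dA x r n : ZMod m))) with hW
  have h0W : (0 : ZMod m) ∈ W := Finset.mem_insert_self _ _
  have hWcard : (W.card : ℝ) ≤ 2 * (C0 / τ0) + 1 := by
    have h1 := Finset.card_insert_le (0 : ZMod m) (cheap.image (fun n => (dA x r n : ZMod m)) ∪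
      cheap.image (fun n => - (dA x r n : ZMod m)))
    have h2 := Finset.card_union_le (cheap.image (fun n => (dA x r n : ZMod m)))
      (cheap.image (fun n => - (dA x r n : ZMod m)))
    have h3 : (cheap.image (fun n => (dA x r n : ZMod m))).card ≤ cheap.card := Finset.card_image_le
    have h4 : (cheap.image (fun n => - (dA x r n : ZMod m))).card ≤ cheap.card := Finset.card_image_le
    have h5 : W.card ≤ 2 * cheap.card + 1 := by rw [← hW] at h1; omega
    have h6 := card_cheap hx hC hτ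
    have h7 : (W.card : ℝ) ≤ 2 * cheap.card + 1 := by exact_mod_cast h5
    linarith
  have hb : (nbhd i 𝒮).image Y ⊆ U + (G0 - G0 + G0) + ksum W i + Iv m (i + 1) := by
    intro y hy
    obtain ⟨S', hS', rfl⟩ := Finset.mem_image.mp hy
    obtain ⟨S, hS, hcardA⟩ := (Finset.mem_filter.mp hS').2
    set A := S ∆ S' with hA
    have hS'A : S' = S ∆ A := by rw [hA, symmDiff_symmDiff_cancel_left]
    have h5 := dY_err x r S A
    set z : ℤ := dY x r (S ∆ A) - dY x r S - ∑ n ∈ A, (if n ∈ S then - dA x r n else dA x r n) with hz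
    have h6 : Y S' = Y S + (∑ n ∈ A.filter (fun n => x n ≤ τ0), (if n ∉ S then (dA x r n : ZMod m) else -(dA x r n : ZMod m)))
        + (∑ n ∈ A.filter (fun n => ¬ x n ≤ τ0), (if n ∈ S then -(dA x r n : ZMod m) else (dA x r n : ZMod m))) + (z : ZMod m) := by
      rw [hz, hS'A, hY, rY, rY]
      push_cast
      have e1 : ∑ n ∈ A.filter (fun n => x n ≤ τ0), (if n ∉ S then (dA x r n : ZMod m) else -(dA x r n : ZMod m)) =
          ∑ n ∈ A.filter (fun n => x n ≤ τ0), (if n ∈ S then -(dA x r n : ZMod m) else (dA x r n : ZMod m)) := by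
        refine Finset.sum_congr rfl (fun n _ => ?_)
        by_cases h : n ∈ S <;> simp [h]
      rw [e1, add_assoc ((dY x r S : ZMod m)), Finset.sum_filter_add_sum_filter_not]
      have : ∑ n ∈ A, (if n ∈ S then - (dA x r n : ZMod m) else (dA x r n : ZMod m)) =
            ∑ n ∈ A, ((if n ∈ S then - dA x r n else dA x r n : ℤ) : ZMod m) := by
            refine Finset.sum_congr rfl (fun n _ => ?_)
            split_ifs <;> simp
      rw [this]
      push_cast
      ring
    rw [h6]
    have h7 : |z| ≤ ((i + 1 : ℕ) : ℤ) := by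
      refine h5.trans ?_
      push_cast
      have h8 : ((A.card : ℕ) : ℤ) ≤ i := by exact_mod_cast hcardA
      linarith
    refine Finset.add_mem_add (Finset.add_mem_add ?_ ?_) (mem_Iv h7)
    · have h8 : (∑ n ∈ A.filter (fun n => x n ≤ τ0), (if n ∉ S then (dA x r n : ZMod m) else -(dA x r n : ZMod m))) ∈ G0 := by
        refine signed_mem h0V _ (fun n => (dA x r n : ZMod m)) ?_ (fun n => n ∉ S)
          (((Finset.card_filter_le _ _).trans hcardA).trans (hit.trans htN))
        intro n hn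
        rw [hV, rich]
        exact Finset.mem_insert_of_mem (Finset.mem_image_of_mem _
          (Finset.mem_filter.mpr ⟨Finset.mem_univ _, (Finset.mem_filter.mp hn).2⟩))
      have h9 : Y S ∈ U + (G0 - G0) := hU2 (Finset.mem_image_of_mem _ hS)
      rw [← add_assoc]
      exact Finset.add_mem_add h9 h8
    · refine sum_mem_ksum' h0W _ _ ?_ ((Finset.card_filter_le _ _).trans hcardA)
      intro n hn
      have hn' : n ∈ cheap := Finset.mem_filter.mpr ⟨Finset.mem_univ _, (Finset.mem_filter.mp hn).2⟩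
      rw [hW]
      refine Finset.mem_insert_of_mem (Finset.mem_union.mpr ?_)
      split_ifs
      · exact Or.inr (Finset.mem_image_of_mem _ hn')
      · exact Or.inl (Finset.mem_image_of_mem _ hn')
  -- counting
  rw [cells_eq x hx hC hr hm, cells_eq x hx hC hr hm]
  have hc1 : (((nbhd i 𝒮).image Y).card : ℝ) ≤ U.card * (G0 - G0 + G0).card * (2 * (C0 / τ0) + 1) ^ i * (2 * i + 3) := by
    have h1 := Finset.card_le_card hb
    have h2 : (U + (G0 - G0 + G0) + ksum W i + Iv m (i + 1)).card ≤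
        U.card * (G0 - G0 + G0).card * (ksum W i).card * (Iv m (i + 1)).card :=
      Finset.card_add_le.trans (Nat.mul_le_mul_right _ (Finset.card_add_le.trans
        (Nat.mul_le_mul_right _ Finset.card_add_le)))
    have h3 := card_Iv m (i + 1)
    have h4 : ((ksum W i).card : ℝ) ≤ (2 * (C0 / τ0) + 1) ^ i := by
      have h5 : ((ksum W i).card : ℝ) ≤ (W.card : ℝ) ^ i := by exact_mod_cast card_ksum_le W i
      exact h5.trans (pow_le_pow_left₀ (Nat.cast_nonneg _) hWcard i)
    have h5 : ((Iv m (i + 1)).card : ℝ) ≤ 2 * i + 3 := by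
      have : ((Iv m (i + 1)).card : ℝ) ≤ ((2 * (i + 1) + 1 : ℕ) : ℝ) := by exact_mod_cast h3
      push_cast at this; linarith
    calc (((nbhd i 𝒮).image Y).card : ℝ) ≤
          ((U.card * (G0 - G0 + G0).card * (ksum W i).card * (Iv m (i + 1)).card : ℕ) : ℝ) := by
          exact_mod_cast h1.trans h2
      _ = (U.card : ℝ) * (G0 - G0 + G0).card * (ksum W i).card * (Iv m (i + 1)).card := by push_cast; ring
      _ ≤ _ := by
          refine mul_le_mul (mul_le_mul_of_nonneg_left h4 (by positivity)) h5 (by positivity) ?_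
          have : (0:ℝ) ≤ (2 * (C0 / τ0) + 1) ^ i := le_trans (Nat.cast_nonneg _) h4
          positivity
  have hc2 : (T'.card : ℝ) ≤ (𝒮'.image Y).card * (2 * t ^ 5 + 3) := by
    have h1 : T'.card ≤ (𝒮'.image Y).card * (Iv m (N + 1)).card := Finset.card_add_le
    have h2 := h1.trans (Nat.mul_le_mul_left _ (card_Iv m (N + 1)))
    have h3 : (T'.card : ℝ) ≤ (((𝒮'.image Y).card * (2 * (N + 1) + 1) : ℕ) : ℝ) := by exact_mod_cast h2
    refine h3.trans (le_of_eq ?_)
    rw [hN]; push_cast; ring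
  have hc3 : ((G0 - G0 + G0).card : ℝ) ≤ G0.card * Real.exp (2 * ρ) := by
    have h1 : (0:ℝ) < (G0 - G0 + G0).card := by
      exact_mod_cast Finset.card_pos.mpr ((hG0ne.sub hG0ne).add hG0ne)
    have h2 : Real.log (ksum V t).card ≤ Real.log G0.card := by
      apply Real.log_le_log
      · exact_mod_cast Finset.card_pos.mpr ⟨0, zero_mem_ksum h0V t⟩
      · have h3 : ksum V t ⊆ G0 := fun g hg => by
          rw [← sub_zero g]
          exact Finset.sub_mem_sub (ksum_mono h0V htN hg) (zero_mem_ksum h0V N)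
        exact_mod_cast Finset.card_le_card h3
    have h4 : Real.log (G0 - G0 + G0).card ≤ Real.log G0.card + 2 * ρ := hg2.trans (by linarith)
    calc ((G0 - G0 + G0).card : ℝ) = Real.exp (Real.log (G0 - G0 + G0).card) := (Real.exp_log h1).symm
      _ ≤ Real.exp (Real.log G0.card + 2 * ρ) := Real.exp_le_exp.mpr h4
      _ = _ := by rw [Real.exp_add, Real.exp_log hG0c]
  have hA : 0 ≤ (2 * (C0 / τ0) + 1 : ℝ) := le_trans (Nat.cast_nonneg _) hWcard
  have hθ2 : θ = β * G0.card / (2 * e4) := by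
    rw [hθ, hc]; field_simp
  have hU3 : (U.card : ℝ) * β * G0.card ≤ 2 * e4 * ((𝒮'.image Y).card * (2 * t ^ 5 + 3)) := by
    have h1 := hU1.trans hc2
    rw [hθ2] at h1
    have h2 : (U.card : ℝ) * (β * G0.card / (2 * e4)) = (U.card : ℝ) * β * G0.card / (2 * e4) := by ring
    rw [h2, div_le_iff₀ (by positivity)] at h1
    linarith
  calc (((nbhd i 𝒮).image Y).card : ℝ) * β
      ≤ (U.card * (G0.card * Real.exp (2 * ρ)) * (2 * (C0 / τ0) + 1) ^ i * (2 * i + 3)) * β := by
        refine mul_le_mul_of_nonneg_right (hc1.trans ?_) hβ.le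
        refine mul_le_mul_of_nonneg_right (mul_le_mul_of_nonneg_right
          (mul_le_mul_of_nonneg_left hc3 (by positivity)) (by positivity)) (by positivity)
    _ = (U.card * β * G0.card) * (Real.exp (2 * ρ) * (2 * (C0 / τ0) + 1) ^ i * (2 * i + 3)) := by ring
    _ ≤ (2 * e4 * ((𝒮'.image Y).card * (2 * t ^ 5 + 3))) *
        (Real.exp (2 * ρ) * (2 * (C0 / τ0) + 1) ^ i * (2 * i + 3)) :=
        mul_le_mul_of_nonneg_right hU3 (by positivity)
    _ = _ := by ring

end Pool.Agent.Lib.Helper88.Ach
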