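import Mathlib
import Pool.Agent.Lib.Helper88.Ach.Core
set_option autoImplicit false
set_option linter.unusedSectionVars false
open Finset
open scoped Pointwise symmDiff
namespace Pool.Agent.Lib.Helper88.Ach

theorem ev_poly {q : ℝ} (hq : 1 < q) (k : ℕ) {c : ℝ} (hc : 0 < c) :
    ∃ i1 : ℕ, ∀ i ≥ i1, (i:ℝ) ^ k ≤ c * q ^ i := by
  have h := tendsto_pow_const_div_const_pow_of_one_lt k hq
  have h2 := (h.eventually (gt_mem_nhds hc))
  obtain ⟨i1, h3⟩ := Filter.eventually_atTop.mp h2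
  refine ⟨i1, fun i hi => ?_⟩
  have h4 := h3 i hi
  have hqi : 0 < q ^ i := by positivity
  rw [div_lt_iff₀ hqi] at h4
  exact h4.le

/-- The scales of the number of letters. -/
def ts (i : ℕ) : ℕ → ℕ
  | 0 => i
  | k + 1 => 6 * (ts i k) ^ 5

/-- The exponents. -/
def es : ℕ → ℕ
  | 0 => 1
  | k + 1 => 5 * es k + 1

theorem ts_le {i : ℕ} (hi : 6 ≤ i) (k : ℕ) : ts i k ≤ i ^ es k := by
  induction k with
  | zero => simp [ts, es]
  | succ k ih =>
    rw [ts, es]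
    calc 6 * ts i k ^ 5 ≤ i * (i ^ es k) ^ 5 := Nat.mul_le_mul hi (Nat.pow_le_pow_left ih 5)
      _ = i ^ (5 * es k + 1) := by rw [← pow_mul, pow_succ, mul_comm (es k) 5, mul_comm]

theorem le_ts {i : ℕ} (hi : 1 ≤ i) (k : ℕ) : i ≤ ts i k := by
  induction k with
  | zero => simp [ts]
  | succ k ih =>
    rw [ts]
    have h1 : ts i k ≤ ts i k ^ 5 := Nat.le_self_pow (by norm_num) _
    omega

theorem es_mono {a b : ℕ} (h : a ≤ b) : es a ≤ es b := by
  induction b, h using Nat.le_induction with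
  | base => exact le_rfl
  | succ n _ ih => rw [es]; omega

theorem es_pos (a : ℕ) : 1 ≤ es a := es_mono (Nat.zero_le a)

/-- Pigeonhole on the scales. -/
theorem exists_scale {m : ℕ} [NeZero m] (V : Finset (ZMod m)) (h0 : (0 : ZMod m) ∈ V) (i : ℕ) {κ0 : ℕ} (hκ : 1 ≤ κ0) :
    ∃ k < κ0, Real.log (ksum V (6 * (ts i k) ^ 5)).card ≤ Real.log (ksum V (ts i k)).card + Real.log m / κ0 := by
  by_contra hcon
  push Not at hcon
  have hκr : (0:ℝ) < κ0 := by exact_mod_cast hκ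
  have h1 : ∑ _k ∈ Finset.range κ0, Real.log m / κ0 <
      ∑ k ∈ Finset.range κ0, (Real.log (ksum V (ts i (k + 1))).card - Real.log (ksum V (ts i k)).card) := by
    refine Finset.sum_lt_sum_of_nonempty ⟨0, Finset.mem_range.mpr (by omega)⟩ (fun k hk => ?_)
    have := hcon k (Finset.mem_range.mp hk)
    rw [ts]; linarith
  rw [Finset.sum_range_sub (fun k => Real.log (ksum V (ts i k)).card) κ0, Finset.sum_const, Finset.card_range,
    nsmul_eq_mul, mul_div_cancel₀ _ hκr.ne'] at h1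
  have h2 : Real.log (ksum V (ts i κ0)).card ≤ Real.log m := by
    apply Real.log_le_log
    · exact_mod_cast Finset.card_pos.mpr ⟨0, zero_mem_ksum h0 _⟩
    · have := Finset.card_le_univ (ksum V (ts i κ0))
      rw [ZMod.card] at this
      exact_mod_cast this
  have h3 : 0 ≤ Real.log (ksum V (ts i 0)).card := Real.log_natCast_nonneg _
  linarith

theorem num_b5 {t i P ρ lm : ℝ} (hi : 0 < i) (hit : i ≤ t) (hP : t ^ 5 ≤ P) (htP : t ≤ P)
    (hlm : 0 ≤ lm) :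
    4 * (2 * ρ + 4 * (t ^ 5) ^ 2 * Real.log (t + 1) + 2 * t * Real.log 2 + 3 / t * lm + 1) ≤
      8 * ρ + 16 * P ^ 3 + 8 * P + 12 / i * lm + 4 := by
  have ht : 0 < t := lt_of_lt_of_le hi hit
  have hl2 : Real.log 2 ≤ 1 := by have := Real.log_two_lt_d9; linarith
  have hl20 : 0 ≤ Real.log 2 := by have := Real.log_two_gt_d9; linarith
  have h1 : Real.log (t + 1) ≤ P := by
    have := Real.log_le_sub_one_of_pos (show (0:ℝ) < t + 1 by linarith); linarith
  have h1' : 0 ≤ Real.log (t + 1) := Real.log_nonneg (by linarith)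
  have h2 : (t ^ 5) ^ 2 * Real.log (t + 1) ≤ P ^ 2 * P :=
    mul_le_mul (pow_le_pow_left₀ (by positivity) hP 2) h1 h1' (by positivity)
  have h3 : t * Real.log 2 ≤ P * 1 := mul_le_mul htP hl2 hl20 (by linarith)
  have h4 : 3 / t * lm ≤ 3 / i * lm := by
    refine mul_le_mul_of_nonneg_right ?_ hlm
    exact div_le_div_of_nonneg_left (by norm_num) hi hit
  have h5 : 12 / i * lm = 4 * (3 / i * lm) := by ring
  have h6 : P ^ 3 = P ^ 2 * P := by ring
  rw [h5, h6]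
  linarith

theorem num_b4 {C1 s : ℝ} (hC : 1 ≤ C1) (hs : 1 ≤ s) (i : ℕ) :
    (2 * (C1 / (2:ℝ) ^ (-(2 * s))) + 1) ^ i ≤ Real.exp (i * (3 * C1 + 2 * s)) := by
  have hl2 : Real.log 2 ≤ 1 := by have := Real.log_two_lt_d9; linarith
  have hl20 : 0 ≤ Real.log 2 := by have := Real.log_two_gt_d9; linarith
  set τ0 := (2:ℝ) ^ (-(2 * s)) with hτ
  have hτpos : 0 < τ0 := by rw [hτ]; positivity
  have h1 : 2 * (C1 / τ0) + 1 ≤ Real.exp (3 * C1 + 2 * s) := by
    have h2 : 1 / τ0 = Real.exp (2 * s * Real.log 2) := by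
      rw [hτ, one_div, ← Real.rpow_neg (by norm_num), neg_neg, Real.rpow_def_of_pos (by norm_num), mul_comm]
    have h3 : 1 ≤ 1 / τ0 := by rw [h2]; exact Real.one_le_exp (by positivity)
    have h4 : 1 / τ0 ≤ Real.exp (2 * s) := by
      rw [h2]; exact Real.exp_le_exp.mpr (by nlinarith)
    have h5 : 3 * C1 ≤ Real.exp (3 * C1) := by have := Real.add_one_le_exp (3 * C1); linarith
    rw [Real.exp_add]
    have h6 : C1 / τ0 = C1 * (1 / τ0) := by ring
    have h7 : 1 * 1 ≤ C1 * (1 / τ0) := mul_le_mul hC h3 zero_le_one (by linarith)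
    calc 2 * (C1 / τ0) + 1 ≤ 3 * C1 * (1 / τ0) := by rw [h6]; linarith
      _ ≤ _ := mul_le_mul h5 h4 (by positivity) (by positivity)
  calc (2 * (C1 / τ0) + 1) ^ i ≤ (Real.exp (3 * C1 + 2 * s)) ^ i :=
        pow_le_pow_left₀ (by positivity) h1 i
    _ = _ := by rw [← Real.exp_nat_mul]

theorem num_final {t i P ρ lm C1 s γ L κ0 : ℝ} (hi : 0 < i) (hit : i ≤ t) (hP : t ^ 5 ≤ P) (htP : t ≤ P)
    (hP1 : 1 ≤ P) (hlm : 0 ≤ lm) (hlm2 : lm ≤ 2 * C1 + L) (hC : 1 ≤ C1) (hs : s * s = L)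
    (hs1 : 1 ≤ s) (hγ : 0 < γ) (h2C1 : 2 * C1 ≤ L) (hκ : 200 < κ0 * γ) (hκ0 : 0 < κ0) (hρ : ρ = lm / κ0)
    (k3 : 240 < i * γ) (k4 : P ^ 3 ≤ γ / 740 * L) (k5 : i ≤ γ / (60 * C1) * L) (k6 : i ≤ γ / 40 * s) :
    1 + (8 * ρ + 16 * P ^ 3 + 8 * P + 12 / i * lm + 4) + 2 * ρ + (2 * P + 2) + (2 * P + 2) +
        i * (3 * C1 + 2 * s) ≤ Real.log 2 * (γ * L) := by
  have hl2' : 1 / 2 ≤ Real.log 2 := by have := Real.log_two_gt_d9; linarith
  have hL : 0 < L := by linarith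
  have hγL : 0 < γ * L := by positivity
  have hP3 : P ≤ P ^ 3 := by
    have : P * 1 ≤ P * P ^ 2 := mul_le_mul_of_nonneg_left (one_le_pow₀ hP1) (by linarith)
    have e : P * P ^ 2 = P ^ 3 := by ring
    linarith
  have c1 : 10 * ρ ≤ γ * L / 10 := by
    have h1 : ρ ≤ (2 * L) / κ0 := by
      rw [hρ]; exact div_le_div_of_nonneg_right (by linarith) hκ0.le
    have h2 : (2 * L) / κ0 ≤ γ * L / 100 := by
      rw [div_le_div_iff₀ hκ0 (by norm_num)]
      have : 200 * L ≤ (κ0 * γ) * L := mul_le_mul_of_nonneg_right hκ.le hL.le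
      linarith
    linarith
  have c2 : 12 / i * lm ≤ γ * L / 10 := by
    have h1 : 12 / i * lm ≤ 12 / i * (2 * L) :=
      mul_le_mul_of_nonneg_left (by linarith) (by positivity)
    refine h1.trans ?_
    have h2 : 12 / i * (2 * L) = 24 * L / i := by ring
    rw [h2, div_le_div_iff₀ hi (by norm_num)]
    have : 240 * L ≤ (i * γ) * L := mul_le_mul_of_nonneg_right k3.le hL.le
    linarith
  have c3 : 37 * P ^ 3 ≤ γ * L / 20 := by linarith
  have c4 : i * (3 * C1) ≤ γ * L / 20 := by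
    have h1 : γ / (60 * C1) * L * (3 * C1) = γ * L / 20 := by field_simp; ring
    have h2 := mul_le_mul_of_nonneg_right k5 (show (0:ℝ) ≤ 3 * C1 by linarith)
    linarith
  have c5 : i * (2 * s) ≤ γ * L / 20 := by
    have h1 := mul_le_mul_of_nonneg_right k6 (show (0:ℝ) ≤ 2 * s by linarith)
    have h2 : γ / 40 * s * (2 * s) = γ * L / 20 := by rw [← hs]; ring
    linarith
  have c6 : 1 / 2 * (γ * L) ≤ Real.log 2 * (γ * L) := mul_le_mul_of_nonneg_right hl2' hγL.le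
  linarith

/-- (KL) absorbing kernels exist at every large level. -/
theorem exists_kern {q : ℝ} (hq : 1 < q) {C0 γ : ℝ} (hγ : 0 < γ) :
    ∃ D i1 : ℕ, ∀ i ≥ i1, ∀ (ι : Type) [Fintype ι] [DecidableEq ι] (x : ι → ℝ), (∀ n, 0 < x n) →
      ∑ n, x n ≤ C0 →
      ∃ κ : Kern x (i ^ D) ((2:ℝ) ^ (-(q ^ ((i:ℝ) / 2)) - i)),
        Absorbs κ i (sc q i) ((2:ℝ) ^ (γ * q ^ i)) := by
  set C1 := max C0 1 with hC1
  have hC11 : 1 ≤ C1 := le_max_right _ _
  obtain ⟨κ0, hκ0⟩ := exists_nat_gt (200 / γ)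
  have hκ0pos : (0:ℝ) < κ0 := lt_trans (by positivity) hκ0
  have hκ01 : 1 ≤ κ0 := by exact_mod_cast hκ0pos
  set D := 5 * es κ0 with hD
  set a := √q with ha
  have ha1 : 1 < a := by rw [ha]; exact Real.lt_sqrt_of_sq_lt (by linarith)
  have haq : a * a = q := Real.mul_self_sqrt (by linarith)
  obtain ⟨i2, hi2⟩ := ev_poly hq 0 (c := 1 / (2 * C1)) (by positivity)
  obtain ⟨i3, hi3⟩ := exists_nat_gt (240 / γ)
  obtain ⟨i4, hi4⟩ := ev_poly hq (3 * D) (c := γ / 740) (by positivity)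
  obtain ⟨i5, hi5⟩ := ev_poly hq 1 (c := γ / (60 * C1)) (by positivity)
  obtain ⟨i6, hi6⟩ := ev_poly ha1 1 (c := γ / 40) (by positivity)
  obtain ⟨i7, hi7⟩ := ev_poly ha1 1 (c := 1 / ((D:ℝ) + 1)) (by positivity)
  refine ⟨D, 6 + i2 + i3 + i4 + i5 + i6 + i7, fun i hi ι _ _ x hx hC => ?_⟩
  have hi_6 : 6 ≤ i := by omega
  have hi1 : 1 ≤ i := by omega
  have hir : (0:ℝ) < i := by exact_mod_cast hi1
  have hir1 : (1:ℝ) ≤ i := by exact_mod_cast hi1
  have k2 := hi2 i (by omega)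
  have k3 : 240 / γ < i := hi3.trans_le (by exact_mod_cast (by omega : i3 ≤ i))
  have k4 := hi4 i (by omega)
  have k5 := hi5 i (by omega)
  have k6 := hi6 i (by omega)
  have k7 := hi7 i (by omega)
  rw [pow_one] at k5 k6 k7
  rw [pow_zero] at k2
  set L : ℝ := q ^ i with hL
  set s : ℝ := a ^ i with hs
  have hss : s * s = L := by rw [hs, hL, ← mul_pow, haq]
  have hs1 : 1 ≤ s := one_le_pow₀ ha1.le
  have hLpos : 0 < L := by rw [hL]; positivity
  have hrp : q ^ ((i:ℝ) / 2) = s := by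
    rw [Real.rpow_div_two_eq_sqrt _ (by linarith), Real.rpow_natCast]
  set r : ℝ := sc q i with hr
  have hrpos : 0 < r := by rw [hr, sc]; positivity
  set τ0 : ℝ := (2:ℝ) ^ (-(2 * s)) with hτ
  have hτpos : 0 < τ0 := by rw [hτ]; positivity
  set m : ℕ := ⌊C1 / r⌋₊ + 1 with hm
  have : NeZero m := ⟨by omega⟩
  have hmlt : C1 / r < m := by rw [hm]; push_cast; exact Nat.lt_floor_add_one _
  have hl2 : Real.log 2 ≤ 1 := by have := Real.log_two_lt_d9; linarith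
  have hl2' : 1 / 2 ≤ Real.log 2 := by have := Real.log_two_gt_d9; linarith
  have hrinv : 1 / r = Real.exp (L * Real.log 2) := by
    rw [hr, sc, one_div, ← Real.rpow_neg (by norm_num), neg_neg, Real.rpow_def_of_pos (by norm_num), mul_comm]
  have hrinv1 : 1 ≤ 1 / r := by rw [hrinv]; exact Real.one_le_exp (by positivity)
  have hlogm : Real.log m ≤ 2 * C1 + L := by
    have h1 : (m:ℝ) ≤ 2 * C1 * (1 / r) := by
      rw [hm]; push_cast
      have := Nat.floor_le (a := C1 / r) (by positivity)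
      have h2 : C1 / r = C1 * (1 / r) := by ring
      nlinarith
    have hm0 : (0:ℝ) < m := by rw [hm]; positivity
    have h2 := Real.log_le_log hm0 h1
    rw [Real.log_mul (by positivity) (by positivity), hrinv, Real.log_exp] at h2
    have h3 : Real.log (2 * C1) ≤ 2 * C1 - 1 := Real.log_le_sub_one_of_pos (by positivity)
    nlinarith
  have hlogm0 : 0 ≤ Real.log m := Real.log_natCast_nonneg _
  have h2C1 : 2 * C1 ≤ L := by
    have : (1:ℝ) ≤ L / (2 * C1) := by linarith [k2, (by ring : 1 / (2 * C1) * L = L / (2 * C1))]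
    rwa [le_div_iff₀ (by positivity), one_mul] at this
  obtain ⟨k, hk, hgrow⟩ := exists_scale (rich x r τ0 m) (Finset.mem_insert_self _ _) i hκ01
  set t := ts i k with ht
  have hit : i ≤ t := le_ts hi1 k
  have ht1 : 1 ≤ t := hi1.trans hit
  have htle : t ≤ i ^ es κ0 := (ts_le hi_6 k).trans (Nat.pow_le_pow_right hi1 (es_mono hk.le))
  have hNle : t ^ 5 ≤ i ^ D := by
    rw [hD, mul_comm, pow_mul]; exact Nat.pow_le_pow_left htle 5
  have htN : t ≤ t ^ 5 := Nat.le_self_pow (by norm_num) t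
  have htr : (i:ℝ) ≤ t := by exact_mod_cast hit
  have ht0 : (0:ℝ) < t := by linarith
  set P : ℝ := (i:ℝ) ^ D with hP
  have hNleP : ((t:ℝ)) ^ 5 ≤ P := by rw [hP]; exact_mod_cast hNle
  have htleP : (t:ℝ) ≤ P := by rw [hP]; exact_mod_cast htN.trans hNle
  have hP1 : 1 ≤ P := by linarith
  have hiP : (i:ℝ) ≤ P := by linarith
  -- displacement
  have hdisp : ((t ^ 5 : ℕ):ℝ) * τ0 ≤ (2:ℝ) ^ (-(q ^ ((i:ℝ) / 2)) - i) := by
    rw [hrp]
    have h1 : ((t ^ 5 : ℕ):ℝ) ≤ (2:ℝ) ^ ((D:ℝ) * i) := by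
      have h2 : t ^ 5 ≤ (2 ^ i) ^ D := hNle.trans (Nat.pow_le_pow_left Nat.lt_two_pow_self.le D)
      have h3 : ((t ^ 5 : ℕ):ℝ) ≤ ((2:ℝ) ^ i) ^ D := by exact_mod_cast h2
      refine h3.trans (le_of_eq ?_)
      rw [← pow_mul, mul_comm i D, ← Real.rpow_natCast]
      push_cast; rfl
    calc ((t ^ 5 : ℕ):ℝ) * τ0 ≤ (2:ℝ) ^ ((D:ℝ) * i) * (2:ℝ) ^ (-(2 * s)) := by
          rw [hτ]; exact mul_le_mul_of_nonneg_right h1 (by positivity)
      _ = (2:ℝ) ^ ((D:ℝ) * i + -(2 * s)) := (Real.rpow_add (by norm_num) _ _).symm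
      _ ≤ (2:ℝ) ^ (-s - i) := by
          apply Real.rpow_le_rpow_of_exponent_le (by norm_num)
          have h4 : ((D:ℝ) + 1) * i ≤ s := by
            have h5 : (i:ℝ) ≤ s / ((D:ℝ) + 1) := by
              have : 1 / ((D:ℝ) + 1) * s = s / ((D:ℝ) + 1) := by ring
              linarith
            rw [le_div_iff₀ (by positivity)] at h5
            linarith
          linarith
  have hρ0 : 0 ≤ Real.log m / κ0 := by positivity
  obtain ⟨κ, hκ⟩ := kern_core hx (hC.trans (le_max_left C0 1)) hrpos hτpos hmlt ht1 hit hNle hdisp hρ0 hgrow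
  refine ⟨κ, ?_⟩
  intro 𝒮 𝒮' β hβ hh
  refine (hκ 𝒮 𝒮' β hβ hh).trans ?_
  refine mul_le_mul_of_nonneg_right ?_ (Nat.cast_nonneg _)
  rw [← hC1]
  -- bound of the constant
  set ρ := Real.log m / κ0 with hρ
  have b1 : (2:ℝ) ≤ Real.exp 1 := by have := Real.add_one_le_exp 1; linarith
  have b2 : 2 * (t:ℝ) ^ 5 + 3 ≤ Real.exp (2 * P + 2) := by
    have := Real.add_one_le_exp (2 * P + 2); linarith
  have b3 : 2 * (i:ℝ) + 3 ≤ Real.exp (2 * P + 2) := by
    have := Real.add_one_le_exp (2 * P + 2); linarith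
  have b4 : (2 * (C1 / τ0) + 1) ^ i ≤ Real.exp (i * (3 * C1 + 2 * s)) := num_b4 hC11 hs1 i
  have b5 := num_b5 (ρ := ρ) hir htr hNleP htleP hlogm0
  have hPpow : P ^ 3 = (i:ℝ) ^ (3 * D) := by rw [hP, ← pow_mul, mul_comm]
  have b6 := num_final hir htr hNleP htleP hP1 hlogm0 hlogm hC11 hss hs1 hγ h2C1
    (by rwa [div_lt_iff₀ hγ] at hκ0) hκ0pos hρ (by rwa [div_lt_iff₀ hγ] at k3) (by rw [hPpow]; exact k4) k5 k6
  have hA1 : (0:ℝ) ≤ 2 * (C1 / τ0) + 1 := by positivity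
  calc 2 * Real.exp (4 * (2 * ρ + 4 * ((t:ℝ) ^ 5) ^ 2 * Real.log (t + 1) + 2 * t * Real.log 2 +
        3 / t * Real.log m + 1)) * Real.exp (2 * ρ) * (2 * (t:ℝ) ^ 5 + 3) * (2 * i + 3) * (2 * (C1 / τ0) + 1) ^ i
      ≤ Real.exp 1 * Real.exp (8 * ρ + 16 * P ^ 3 + 8 * P + 12 / i * Real.log m + 4) * Real.exp (2 * ρ) *
        Real.exp (2 * P + 2) * Real.exp (2 * P + 2) * Real.exp (i * (3 * C1 + 2 * s)) := by
        refine mul_le_mul (mul_le_mul (mul_le_mul (mul_le_mul (mul_le_mul b1 (Real.exp_le_exp.mpr b5)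
          (Real.exp_pos _).le (Real.exp_pos _).le) le_rfl (Real.exp_pos _).le ?_) b2 ?_ ?_) b3 ?_ ?_) b4 ?_ ?_ <;>
        positivity
    _ = Real.exp (1 + (8 * ρ + 16 * P ^ 3 + 8 * P + 12 / i * Real.log m + 4) + 2 * ρ + (2 * P + 2) + (2 * P + 2) +
        i * (3 * C1 + 2 * s)) := by
        simp only [Real.exp_add]
    _ ≤ Real.exp (Real.log 2 * (γ * L)) := Real.exp_le_exp.mpr b6
    _ = (2:ℝ) ^ (γ * L) := by rw [Real.rpow_def_of_pos (by norm_num)]

end Pool.Agent.Lib.Helper88.Ach
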